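import Mathlib

open Filter Topology Set

namespace Pool.Agent.H57.Rooms

variable {X Y Z : Type*} [NormedAddCommGroup X] [NormedSpace ℝ X]
  [NormedAddCommGroup Z] [NormedSpace ℝ Z]
  [NormedAddCommGroup Y] [InnerProductSpace ℝ Y] [CompleteSpace Y]

omit [CompleteSpace Y] in
/-- rescaled lower bound -/
lemma lower_scaled (V : Submodule ℝ (X × Y)) (P : X →L[ℝ] Z) {d m : ℝ}
    (hlow : ∀ v ∈ V, ‖v.1‖ = 1 → ‖P v.1‖ ≤ d → m ≤ ‖v.2‖ ^ 2)
    {v : X × Y} (hv : v ∈ V) (hpos : 0 < ‖v.1‖) (hP : ‖P v.1‖ ≤ d * ‖v.1‖) :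
    m * ‖v.1‖ ^ 2 ≤ ‖v.2‖ ^ 2 := by
  have h1 := hlow (‖v.1‖⁻¹ • v) (V.smul_mem _ hv)
    (by rw [Prod.smul_fst, norm_smul, norm_inv, norm_norm]; exact inv_mul_cancel₀ hpos.ne')
    (by
      rw [Prod.smul_fst, map_smul, norm_smul, norm_inv, norm_norm]
      rw [inv_mul_le_iff₀ hpos]
      linarith)
  rw [Prod.smul_snd, norm_smul, norm_inv, norm_norm, mul_pow, inv_pow] at h1
  have h2 := mul_le_mul_of_nonneg_right h1 (sq_nonneg ‖v.1‖)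
  have h3 : (‖v.1‖ ^ 2)⁻¹ * ‖v.2‖ ^ 2 * ‖v.1‖ ^ 2 = ‖v.2‖ ^ 2 := by
    field_simp
  linarith

/-- The direct method with a barrier. -/
theorem abstract_min (V : Submodule ℝ (X × Y)) (P : X →L[ℝ] Z) {d m κ : ℝ}
    (hd : 0 < d) (hκ : 0 < κ)
    (hcomp : ∀ v : ℕ → X × Y, (∀ n, v n ∈ V) → (∃ C, ∀ n, ‖(v n).2‖ ^ 2 ≤ C) →
      ∃ u : X, ∃ k : ℕ → ℕ, StrictMono k ∧ Tendsto (fun n => (v (k n)).1) atTop (𝓝 u))
    (hlow : ∀ v ∈ V, ‖v.1‖ = 1 → ‖P v.1‖ ≤ d → m ≤ ‖v.2‖ ^ 2)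
    (hbar : ∀ v ∈ V, ‖v.1‖ = 1 → d / 2 ≤ ‖P v.1‖ → ‖P v.1‖ ≤ d → m + κ ≤ ‖v.2‖ ^ 2)
    (v : ℕ → X × Y) (hv : ∀ n, v n ∈ V) (hv1 : ∀ n, ‖(v n).1‖ = 1)
    (hvd : ∀ n, ‖P (v n).1‖ ≤ d) (hvE : Tendsto (fun n => ‖(v n).2‖ ^ 2) atTop (𝓝 m)) :
    ∃ k : ℕ → ℕ, StrictMono k ∧ ∃ u G, Tendsto (fun n => (v (k n)).1) atTop (𝓝 u) ∧
      Tendsto (fun n => (v (k n)).2) atTop (𝓝 G) ∧ ‖u‖ = 1 ∧ ‖P u‖ ≤ d / 2 ∧ ‖G‖ ^ 2 = m ∧
      (∀ w ∈ V, ∀ᶠ t in 𝓝 (0 : ℝ), m * ‖u + t • w.1‖ ^ 2 ≤ ‖G + t • w.2‖ ^ 2) := by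
  have hbdd : ∃ C, ∀ n, ‖(v n).2‖ ^ 2 ≤ C := by
    obtain ⟨C, hC⟩ := hvE.bddAbove_range
    exact ⟨C, fun n => hC ⟨n, rfl⟩⟩
  obtain ⟨u, k, hk, hu⟩ := hcomp v hv hbdd
  have hE : Tendsto (fun n => ‖(v (k n)).2‖ ^ 2) atTop (𝓝 m) := hvE.comp hk.tendsto_atTop
  have hu1 : ‖u‖ = 1 := by
    have h1 := hu.norm
    simp only [hv1] at h1
    exact (tendsto_nhds_unique h1 tendsto_const_nhds)
  have hPu : Tendsto (fun n => ‖P (v (k n)).1‖) atTop (𝓝 ‖P u‖) :=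
    (((P.continuous.tendsto u).comp hu)).norm
  have hPu2 : ‖P u‖ ≤ d / 2 := by
    apply le_of_tendsto hPu
    have h1 := hE.eventually (gt_mem_nhds (show m < m + κ by linarith))
    filter_upwards [h1] with n hn
    by_contra hcon
    push Not at hcon
    have := hbar _ (hv (k n)) (hv1 _) hcon.le (hvd _)
    linarith
  -- parallelogram
  have hcauchy : CauchySeq (fun n => (v (k n)).2) := by
    have hS : Tendsto (fun q : ℕ × ℕ => (v (k q.1)).1 + (v (k q.2)).1) (atTop ×ˢ atTop)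
        (𝓝 (u + u)) := (hu.comp tendsto_fst).add (hu.comp tendsto_snd)
    have huu : ‖u + u‖ = 2 := by
      rw [← two_smul ℝ u, norm_smul, hu1]; norm_num
    have hS1 : Tendsto (fun q : ℕ × ℕ => ‖(v (k q.1)).1 + (v (k q.2)).1‖) (atTop ×ˢ atTop)
        (𝓝 2) := by
      have := hS.norm
      rwa [huu] at this
    have hS2 : Tendsto (fun q : ℕ × ℕ => d * ‖(v (k q.1)).1 + (v (k q.2)).1‖ -
        ‖P ((v (k q.1)).1 + (v (k q.2)).1)‖) (atTop ×ˢ atTop)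
        (𝓝 (d * 2 - ‖P (u + u)‖)) :=
      (hS1.const_mul d).sub ((P.continuous.tendsto _).comp hS).norm
    have hpos : 0 < d * 2 - ‖P (u + u)‖ := by
      have : ‖P (u + u)‖ ≤ ‖P u‖ + ‖P u‖ := by rw [map_add]; exact norm_add_le _ _
      linarith
    have hF : Tendsto (fun q : ℕ × ℕ => 2 * ‖(v (k q.1)).2‖ ^ 2 + 2 * ‖(v (k q.2)).2‖ ^ 2 -
        m * ‖(v (k q.1)).1 + (v (k q.2)).1‖ ^ 2) (atTop ×ˢ atTop) (𝓝 0) := by
      have h := ((hE.comp (tendsto_fst (f := (atTop : Filter ℕ)) (g := (atTop : Filter ℕ)))).const_mul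
        2).add ((hE.comp (tendsto_snd (f := (atTop : Filter ℕ)) (g := (atTop : Filter ℕ)))).const_mul 2)
      have h2 := h.sub ((hS1.pow 2).const_mul m)
      have e : 2 * m + 2 * m - m * 2 ^ 2 = 0 := by ring
      rw [e] at h2
      exact h2
    rw [Metric.cauchySeq_iff]
    intro ε hε
    have hev := (hS1.eventually (lt_mem_nhds (show (0 : ℝ) < 2 by norm_num))).and
      ((hS2.eventually (lt_mem_nhds hpos)).and
        (hF.eventually (gt_mem_nhds (show (0 : ℝ) < ε ^ 2 by positivity))))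
    rw [prod_atTop_atTop_eq, eventually_atTop_prod_self'] at hev
    obtain ⟨N, hN⟩ := hev
    refine ⟨N, fun a ha b hb => ?_⟩
    obtain ⟨h1, h2, h3⟩ := hN a ha b hb
    simp only at h1 h2 h3
    have h4 := lower_scaled V P hlow (v := v (k a) + v (k b)) (V.add_mem (hv _) (hv _))
      h1 (by simpa using h2.le)
    rw [Prod.fst_add, Prod.snd_add] at h4
    have h5 := parallelogram_law_with_norm ℝ (v (k a)).2 (v (k b)).2
    have h6 : ‖(v (k a)).2 - (v (k b)).2‖ ^ 2 < ε ^ 2 := by nlinarith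
    rw [dist_eq_norm]
    exact lt_of_pow_lt_pow_left₀ 2 hε.le h6
  obtain ⟨G, hG⟩ := cauchySeq_tendsto_of_complete hcauchy
  refine ⟨k, hk, u, G, hu, hG, hu1, hPu2, ?_, ?_⟩
  · exact tendsto_nhds_unique (hG.norm.pow 2) hE
  · intro w hw
    have hlim1 : Tendsto (fun t : ℝ => ‖u + t • w.1‖) (𝓝 0) (𝓝 ‖u‖) := by
      have : Continuous (fun t : ℝ => ‖u + t • w.1‖) := by fun_prop
      have h := this.tendsto 0
      simpa using h
    have hlim2 : Tendsto (fun t : ℝ => d * ‖u + t • w.1‖ - ‖P (u + t • w.1)‖) (𝓝 0)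
        (𝓝 (d * ‖u‖ - ‖P u‖)) := by
      have : Continuous (fun t : ℝ => d * ‖u + t • w.1‖ - ‖P (u + t • w.1)‖) := by fun_prop
      have h := this.tendsto 0
      simpa using h
    have hpos : 0 < d * ‖u‖ - ‖P u‖ := by rw [hu1]; linarith
    have hpos' : 0 < ‖u‖ := by rw [hu1]; exact one_pos
    filter_upwards [hlim1.eventually (lt_mem_nhds hpos'), hlim2.eventually (lt_mem_nhds hpos)]
      with t ht1 ht2
    -- pass to the limit in n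
    have hA : Tendsto (fun n => (v (k n)).1 + t • w.1) atTop (𝓝 (u + t • w.1)) :=
      hu.add tendsto_const_nhds
    have hB : Tendsto (fun n => (v (k n)).2 + t • w.2) atTop (𝓝 (G + t • w.2)) :=
      hG.add tendsto_const_nhds
    have hA1 := hA.norm
    have hA2 : Tendsto (fun n => d * ‖(v (k n)).1 + t • w.1‖ - ‖P ((v (k n)).1 + t • w.1)‖) atTop
        (𝓝 (d * ‖u + t • w.1‖ - ‖P (u + t • w.1)‖)) :=
      (hA1.const_mul d).sub ((P.continuous.tendsto _).comp hA).norm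
    apply le_of_tendsto_of_tendsto ((hA1.pow 2).const_mul m) (hB.norm.pow 2)
    filter_upwards [hA1.eventually (lt_mem_nhds ht1), hA2.eventually (lt_mem_nhds ht2)]
      with n hn1 hn2
    exact lower_scaled V P hlow (v := v (k n) + t • w) (V.add_mem (hv _) (V.smul_mem _ hw))
      hn1 (by simpa using hn2.le)

end Pool.Agent.H57.Rooms
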