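import Pool.Agent.H57.Rooms.Test

open MeasureTheory Set Filter Topology
open scoped ContDiff
open Pool.Agent.MP_21f5b8_an

namespace Pool.Agent.H57.Rooms

/-- smooth step from `0` (left of `a`) to `1` (right of `b`) -/
noncomputable def step (a b x : ℝ) : ℝ := Real.smoothTransition ((x - a) / (b - a))

lemma step_contDiff (a b : ℝ) : ContDiff ℝ ∞ (step a b) := by
  unfold step
  exact Real.smoothTransition.contDiff.comp (by fun_prop)

lemma step_nonneg (a b x : ℝ) : 0 ≤ step a b x := Real.smoothTransition.nonneg _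
lemma step_le_one (a b x : ℝ) : step a b x ≤ 1 := Real.smoothTransition.le_one _
lemma step_zero {a b x : ℝ} (hab : a < b) (hx : x ≤ a) : step a b x = 0 := by
  apply Real.smoothTransition.zero_of_nonpos
  apply div_nonpos_of_nonpos_of_nonneg <;> linarith
lemma step_one {a b x : ℝ} (hab : a < b) (hx : b ≤ x) : step a b x = 1 := by
  apply Real.smoothTransition.one_of_one_le
  rw [le_div_iff₀ (by linarith)]
  linarith

/-- cutoff data -/
structure Cut (p0 p1 p2 p4 p5 p6 : ℝ) (χ1 χ2 : ℝ → ℝ) (K : ℝ) : Prop where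
  s1 : ContDiff ℝ ∞ χ1
  s2 : ContDiff ℝ ∞ χ2
  n1 : ∀ x, 0 ≤ χ1 x
  n2 : ∀ x, 0 ≤ χ2 x
  le : ∀ x, χ1 x + χ2 x ≤ 1
  z1 : ∀ x, x ∉ Ioo p1 p5 → χ1 x = 0
  z2 : ∀ x, x ∈ Icc p1 p5 → χ2 x = 0
  one : ∀ x, x ∉ Icc p0 p2 ∪ Icc p4 p6 → χ1 x + χ2 x = 1
  d1 : ∀ x ∈ Icc (0 : ℝ) 1, |deriv χ1 x| ≤ K
  d2 : ∀ x ∈ Icc (0 : ℝ) 1, |deriv χ2 x| ≤ K

lemma exists_cut {p0 p1 p2 p4 p5 p6 : ℝ} (h01 : p0 < p1) (h12 : p1 < p2) (h24 : p2 < p4)
    (h45 : p4 < p5) (h56 : p5 < p6) : ∃ χ1 χ2 K, Cut p0 p1 p2 p4 p5 p6 χ1 χ2 K := by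
  set χ1 : ℝ → ℝ := fun x => step p1 p2 x * (1 - step p4 p5 x) with hχ1
  set χ2 : ℝ → ℝ := fun x => (1 - step p0 p1 x) + step p5 p6 x with hχ2
  have s1 : ContDiff ℝ ∞ χ1 := (step_contDiff _ _).mul (contDiff_const.sub (step_contDiff _ _))
  have s2 : ContDiff ℝ ∞ χ2 := (contDiff_const.sub (step_contDiff _ _)).add (step_contDiff _ _)
  have n1 : ∀ x, 0 ≤ χ1 x := fun x =>
    mul_nonneg (step_nonneg _ _ _) (by linarith [step_le_one p4 p5 x])
  have n2 : ∀ x, 0 ≤ χ2 x := fun x =>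
    add_nonneg (by linarith [step_le_one p0 p1 x]) (step_nonneg _ _ _)
  have z1 : ∀ x, x ∉ Ioo p1 p5 → χ1 x = 0 := by
    intro x hx
    simp only [hχ1]
    by_cases h : x ≤ p1
    · rw [step_zero h12 h, zero_mul]
    · have h' : p5 ≤ x := by
        by_contra h''
        exact hx ⟨lt_of_not_ge h, lt_of_not_ge h''⟩
      rw [step_one h45 h']; ring
  have z2 : ∀ x, x ∈ Icc p1 p5 → χ2 x = 0 := by
    intro x hx
    simp only [hχ2]
    rw [step_one h01 hx.1, step_zero h56 hx.2]; ring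
  have le1 : ∀ x, χ1 x ≤ 1 := by
    intro x
    simp only [hχ1]
    have := step_le_one p1 p2 x
    have := step_nonneg p1 p2 x
    have := step_le_one p4 p5 x
    have := step_nonneg p4 p5 x
    nlinarith
  have le : ∀ x, χ1 x + χ2 x ≤ 1 := by
    intro x
    by_cases h : x ∈ Icc p1 p5
    · rw [z2 x h]; linarith [le1 x]
    · have hz : χ1 x = 0 := z1 x (fun h' => h (Ioo_subset_Icc_self h'))
      rw [hz, zero_add]
      simp only [hχ2]
      by_cases h1 : x ≤ p5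
      · rw [step_zero h56 h1]; linarith [step_nonneg p0 p1 x]
      · rw [step_one h01 (by linarith : p1 ≤ x)]; linarith [step_le_one p5 p6 x]
  have one : ∀ x, x ∉ Icc p0 p2 ∪ Icc p4 p6 → χ1 x + χ2 x = 1 := by
    intro x hx
    simp only [hχ1, hχ2]
    have hx1 : x ∉ Icc p0 p2 := fun h => hx (Or.inl h)
    have hx2 : x ∉ Icc p4 p6 := fun h => hx (Or.inr h)
    by_cases ha : x < p0
    · rw [step_zero h12 (by linarith), step_zero h01 (by linarith), step_zero h56 (by linarith)]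
      ring
    · have hb : p2 < x := by
        by_contra hb
        exact hx1 ⟨le_of_not_gt ha, le_of_not_gt hb⟩
      by_cases hc : x < p4
      · rw [step_one h12 (by linarith), step_one h01 (by linarith), step_zero h56 (by linarith),
          step_zero h45 (by linarith)]
        ring
      · have hd : p6 < x := by
          by_contra hd
          exact hx2 ⟨le_of_not_gt hc, le_of_not_gt hd⟩
        rw [step_one h12 (by linarith), step_one h01 (by linarith), step_one h56 (by linarith),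
          step_one h45 (by linarith)]
        ring
  obtain ⟨K1, hK1⟩ := isCompact_Icc.exists_bound_of_continuousOn (s := Icc (0 : ℝ) 1)
    (f := deriv χ1) (s1.continuous_deriv (by simp)).continuousOn
  obtain ⟨K2, hK2⟩ := isCompact_Icc.exists_bound_of_continuousOn (s := Icc (0 : ℝ) 1)
    (f := deriv χ2) (s2.continuous_deriv (by simp)).continuousOn
  exact ⟨χ1, χ2, max K1 K2, ⟨s1, s2, n1, n2, le, z1, z2, one,
    fun x hx => (hK1 x hx).trans (le_max_left _ _),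
    fun x hx => (hK2 x hx).trans (le_max_right _ _)⟩⟩

lemma Cut.dz1 {p0 p1 p2 p4 p5 p6 K : ℝ} {χ1 χ2 : ℝ → ℝ} (h : Cut p0 p1 p2 p4 p5 p6 χ1 χ2 K)
    {x : ℝ} (hx : χ1 x = 0) : deriv χ1 x = 0 := by
  apply IsLocalMin.deriv_eq_zero
  exact Filter.Eventually.of_forall (fun y => by rw [hx]; exact h.n1 y)

lemma Cut.dz2 {p0 p1 p2 p4 p5 p6 K : ℝ} {χ1 χ2 : ℝ → ℝ} (h : Cut p0 p1 p2 p4 p5 p6 χ1 χ2 K)
    {x : ℝ} (hx : χ2 x = 0) : deriv χ2 x = 0 := by
  apply IsLocalMin.deriv_eq_zero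
  exact Filter.Eventually.of_forall (fun y => by rw [hx]; exact h.n2 y)

lemma Cut.dsum {p0 p1 p2 p4 p5 p6 K : ℝ} {χ1 χ2 : ℝ → ℝ} (h : Cut p0 p1 p2 p4 p5 p6 χ1 χ2 K)
    {x : ℝ} (hx : χ1 x + χ2 x = 1) : deriv χ1 x + deriv χ2 x = 0 := by
  have h1 : deriv (fun y => χ1 y + χ2 y) x = 0 := by
    apply IsLocalMax.deriv_eq_zero
    refine Filter.Eventually.of_forall (fun y => ?_)
    show χ1 y + χ2 y ≤ χ1 x + χ2 x
    rw [hx]; exact h.le y
  rw [deriv_fun_add ((h.s1.differentiable (by simp)) x) ((h.s2.differentiable (by simp)) x)] at h1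
  exact h1

lemma pointwise_alg {a b f c k W K : ℝ} (hW : 0 < W) (hc0 : 0 ≤ c) (hc1 : c ≤ 1)
    (hk : f = 0 ∨ |k| ≤ K) :
    (c * a + k * f) ^ 2 + (c * b) ^ 2 ≤ a ^ 2 + b ^ 2 + (W * a ^ 2 + (1 + W⁻¹) * K ^ 2 * f ^ 2) := by
  have h1 : (c * b) ^ 2 ≤ b ^ 2 := by
    rw [mul_pow]
    have : c ^ 2 ≤ 1 := by nlinarith
    nlinarith [sq_nonneg b]
  have h2 : (c * a) ^ 2 ≤ a ^ 2 := by
    rw [mul_pow]
    have : c ^ 2 ≤ 1 := by nlinarith
    nlinarith [sq_nonneg a]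
  have hWi : 0 < W⁻¹ := inv_pos.mpr hW
  have hWW : W * W⁻¹ = 1 := mul_inv_cancel₀ hW.ne'
  have h3 : (k * f) ^ 2 ≤ K ^ 2 * f ^ 2 := by
    rcases hk with hf | hk
    · rw [hf]; norm_num
    · rw [mul_pow]
      apply mul_le_mul_of_nonneg_right _ (sq_nonneg f)
      rw [← sq_abs k]
      exact pow_le_pow_left₀ (abs_nonneg _) hk 2
  -- 2 (c a)(k f) ≤ W (c a)^2 + W⁻¹ (k f)^2
  have h4 : 2 * (c * a) * (k * f) ≤ W * (c * a) ^ 2 + W⁻¹ * (k * f) ^ 2 := by
    have h5 : 0 ≤ W⁻¹ * (W * (c * a) - k * f) ^ 2 := by positivity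
    have h6 : W⁻¹ * (W * (c * a) - k * f) ^ 2 =
      (W * W⁻¹) * W * (c * a) ^ 2 - 2 * (W * W⁻¹) * (c * a) * (k * f) + W⁻¹ * (k * f) ^ 2 := by ring
    rw [h6, hWW] at h5
    linarith
  have h7 : W * (c * a) ^ 2 ≤ W * a ^ 2 := mul_le_mul_of_nonneg_left h2 hW.le
  have h8 : W⁻¹ * (k * f) ^ 2 ≤ W⁻¹ * (K ^ 2 * f ^ 2) := mul_le_mul_of_nonneg_left h3 hWi.le
  nlinarith

lemma cut_energy {p0 p1 p2 p4 p5 p6 K : ℝ} {χ1 χ2 : ℝ → ℝ}
    (hcut : Cut p0 p1 p2 p4 p5 p6 χ1 χ2 K) {Ω : Set E2} {W : ℝ} (hW : 0 < W) (hW1 : W ≤ 1)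
    (hΩ : ∀ z ∈ Ω, z 0 ∈ Ioo (0 : ℝ) 1 ∧ z 1 ∈ Ioo (0 : ℝ) 1)
    (hT : ∀ z ∈ Ω, z 0 ∈ Icc p0 p2 ∪ Icc p4 p6 → z 1 < W) {φ : E2 → ℝ} (hφ : IsTest Ω φ) :
    En (fun z => χ1 (z 0) * φ z) + En (fun z => χ2 (z 0) * φ z) ≤
      (1 + (1 + 8 * K ^ 2) * W) * En φ := by
  set T : Set ℝ := Icc p0 p2 ∪ Icc p4 p6 with hTdef
  have hTm : MeasurableSet T := measurableSet_Icc.union measurableSet_Icc
  have hTs : MeasurableSet (vstrip T) := by
    have : Measurable (fun z : E2 => z 0) := by fun_prop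
    exact this hTm
  have t1 := test_mulx hcut.s1 hφ
  have t2 := test_mulx hcut.s2 hφ
  have iE := integrable_gradsq hφ
  have i2 := integrable_pow hφ 2 (by norm_num)
  have hpw : ∀ z : E2, ‖gradient (fun z => χ1 (z 0) * φ z) z‖ ^ 2 +
      ‖gradient (fun z => χ2 (z 0) * φ z) z‖ ^ 2 ≤ ‖gradient φ z‖ ^ 2 +
        (vstrip T).indicator (fun z => W * ‖gradient φ z‖ ^ 2 +
          (1 + W⁻¹) * K ^ 2 * φ z ^ 2) z := by
    intro z
    rw [norm_sq_E2 (gradient (fun z => χ1 (z 0) * φ z) z),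
      norm_sq_E2 (gradient (fun z => χ2 (z 0) * φ z) z),
      grad_mulx_zero hcut.s1 (test_diff hφ z), grad_mulx_zero hcut.s2 (test_diff hφ z),
      grad_mulx_one hcut.s1 (test_diff hφ z), grad_mulx_one hcut.s2 (test_diff hφ z)]
    have hK1 : φ z = 0 ∨ |deriv χ1 (z 0)| ≤ K := by
      by_cases hz : z ∈ Ω
      · exact Or.inr (hcut.d1 _ (Ioo_subset_Icc_self (hΩ z hz).1))
      · exact Or.inl (test_zero_off hφ hz)
    have hK2 : φ z = 0 ∨ |deriv χ2 (z 0)| ≤ K := by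
      by_cases hz : z ∈ Ω
      · exact Or.inr (hcut.d2 _ (Ioo_subset_Icc_self (hΩ z hz).1))
      · exact Or.inl (test_zero_off hφ hz)
    have hor : χ1 (z 0) = 0 ∨ χ2 (z 0) = 0 := by
      by_cases h : z 0 ∈ Ioo p1 p5
      · exact Or.inr (hcut.z2 _ (Ioo_subset_Icc_self h))
      · exact Or.inl (hcut.z1 _ h)
    have hle := hcut.le (z 0)
    have hn1 := hcut.n1 (z 0)
    have hn2 := hcut.n2 (z 0)
    have hns := norm_sq_E2 (gradient φ z)
    by_cases hz : z ∈ vstrip T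
    · rw [indicator_of_mem hz]
      have hb : W * ‖gradient φ z‖ ^ 2 = W * gradient φ z 0 ^ 2 + W * gradient φ z 1 ^ 2 := by
        rw [hns]; ring
      have hb2 : 0 ≤ W * gradient φ z 1 ^ 2 := by positivity
      rcases hor with h | h
      · rw [h, hcut.dz1 h]
        have := pointwise_alg (a := gradient φ z 0) (b := gradient φ z 1) (f := φ z)
          (c := χ2 (z 0)) (k := deriv χ2 (z 0)) hW hn2 (by linarith) hK2
        rw [hb, hns]
        linarith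
      · rw [h, hcut.dz2 h]
        have := pointwise_alg (a := gradient φ z 0) (b := gradient φ z 1) (f := φ z)
          (c := χ1 (z 0)) (k := deriv χ1 (z 0)) hW hn1 (by linarith) hK1
        rw [hb, hns]
        linarith
    · rw [indicator_of_notMem hz]
      have hone := hcut.one (z 0) hz
      have hds := hcut.dsum hone
      rcases hor with h | h
      · have hd := hcut.dz1 h
        have h2 : χ2 (z 0) = 1 := by linarith
        have hd2 : deriv χ2 (z 0) = 0 := by linarith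
        rw [h, hd, h2, hd2, hns]
        apply le_of_eq; ring
      · have hd := hcut.dz2 h
        have h2 : χ1 (z 0) = 1 := by linarith
        have hd2 : deriv χ1 (z 0) = 0 := by linarith
        rw [h, hd, h2, hd2, hns]
        apply le_of_eq; ring
  have iInd : Integrable ((vstrip T).indicator (fun z => W * ‖gradient φ z‖ ^ 2 +
          (1 + W⁻¹) * K ^ 2 * φ z ^ 2)) :=
    ((iE.const_mul _).add (i2.const_mul _)).indicator hTs
  have hP := strip_poincare (test_c1 hφ) hφ.2.1 hTm hW (by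
    intro z hz hz1
    by_contra hne
    have hzΩ : z ∈ Ω := by
      by_contra h; exact hne (test_zero_off hφ h)
    exact hz1 ⟨(hΩ z hzΩ).2.1, hT z hzΩ hz⟩)
  have hE0 := En_nonneg φ
  calc En (fun z => χ1 (z 0) * φ z) + En (fun z => χ2 (z 0) * φ z)
      = ∫ z : E2, (‖gradient (fun z => χ1 (z 0) * φ z) z‖ ^ 2 +
        ‖gradient (fun z => χ2 (z 0) * φ z) z‖ ^ 2) :=
        (integral_add (integrable_gradsq t1) (integrable_gradsq t2)).symm
    _ ≤ ∫ z : E2, (‖gradient φ z‖ ^ 2 + (vstrip T).indicator (fun z => W * ‖gradient φ z‖ ^ 2 +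
          (1 + W⁻¹) * K ^ 2 * φ z ^ 2) z) := by
        apply integral_mono ((integrable_gradsq t1).add (integrable_gradsq t2)) (iE.add iInd)
        exact hpw
    _ = En φ + (W * (∫ z in vstrip T, ‖gradient φ z‖ ^ 2) +
          (1 + W⁻¹) * K ^ 2 * ∫ z in vstrip T, φ z ^ 2) := by
        rw [integral_add iE iInd, integral_indicator hTs,
          integral_add (iE.integrableOn.const_mul _) (i2.integrableOn.const_mul _),
          integral_const_mul, integral_const_mul]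
        rfl
    _ ≤ En φ + (W * En φ + (1 + W⁻¹) * K ^ 2 * (4 * W ^ 2 * En φ)) := by
        have h1 : ∫ z in vstrip T, ‖gradient φ z‖ ^ 2 ≤ En φ :=
          setIntegral_le_integral iE (ae_of_all _ (fun z => by positivity))
        gcongr
    _ ≤ (1 + (1 + 8 * K ^ 2) * W) * En φ := by
        have hWW : W * W⁻¹ = 1 := mul_inv_cancel₀ hW.ne'
        have e : (1 + W⁻¹) * K ^ 2 * (4 * W ^ 2 * En φ) =
          4 * K ^ 2 * (W ^ 2 + (W * W⁻¹) * W) * En φ := by ring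
        rw [e, hWW]
        have h1 : 4 * K ^ 2 * (W ^ 2 + 1 * W) * En φ ≤ 4 * K ^ 2 * (2 * W) * En φ := by
          gcongr
          nlinarith
        nlinarith

lemma measurableSet_vstrip {I : Set ℝ} (hI : MeasurableSet I) : MeasurableSet (vstrip I) := by
  have : Measurable (fun z : E2 => z 0) := by fun_prop
  exact this hI

/-- mass lost by the cutoff, abstract version -/
lemma mass_lower {φ ψ : E2 → ℝ} {A T : Set E2} (hA : MeasurableSet A) (hT : MeasurableSet T)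
    (hφ : Integrable (fun z => φ z ^ 4)) (hψ : Integrable (fun z => ψ z ^ 4))
    (h : ∀ z ∈ A, z ∉ T → ψ z = φ z) :
    (∫ z in A, φ z ^ 4) - (∫ z in T, φ z ^ 4) ≤ ∫ z, ψ z ^ 4 := by
  rw [← integral_indicator hA, ← integral_indicator hT, ← integral_sub
    (hφ.indicator hA) (hφ.indicator hT)]
  apply integral_mono ((hφ.indicator hA).sub (hφ.indicator hT)) hψ
  intro z
  show A.indicator (fun z => φ z ^ 4) z - T.indicator (fun z => φ z ^ 4) z ≤ ψ z ^ 4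
  have h0 : 0 ≤ ψ z ^ 4 := by positivity
  have h1 : 0 ≤ φ z ^ 4 := by positivity
  by_cases hzA : z ∈ A
  · by_cases hzT : z ∈ T
    · rw [indicator_of_mem hzA, indicator_of_mem hzT]; linarith
    · rw [indicator_of_mem hzA, indicator_of_notMem hzT, h z hzA hzT]; linarith
  · rw [indicator_of_notMem hzA]
    by_cases hzT : z ∈ T
    · rw [indicator_of_mem hzT]; linarith
    · rw [indicator_of_notMem hzT]; linarith

/-- global Rayleigh bound -/
lemma global_bound {Ω : Set E2} (hΩ : ∀ z ∈ Ω, z 0 ∈ Ioo (0 : ℝ) 1 ∧ z 1 ∈ Ioo (0 : ℝ) 1)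
    {φ : E2 → ℝ} (hφ : IsTest Ω φ) : ∫ z, φ z ^ 4 ≤ 8 * En φ ^ 2 := by
  have h1 : ∀ z : E2, z 1 ∉ Ioo (0 : ℝ) 1 → φ z = 0 := by
    intro z hz
    by_contra hne
    have hzΩ : z ∈ Ω := by
      by_contra h; exact hne (test_zero_off hφ h)
    exact hz (hΩ z hzΩ).2
  have := strip_ineq (test_c1 hφ) hφ.2.1 MeasurableSet.univ one_pos (fun z _ hz => h1 z hz) h1
  simpa [vstrip] using this

/-- The barrier estimate. -/
lemma barrier {p0 p1 p2 p4 p5 p6 K : ℝ} {χ1 χ2 : ℝ → ℝ}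
    (hcut : Cut p0 p1 p2 p4 p5 p6 χ1 χ2 K) {Ω : Set E2} {W : ℝ} (hW : 0 < W) (hW1 : W ≤ 1)
    (hΩ : ∀ z ∈ Ω, z 0 ∈ Ioo (0 : ℝ) 1 ∧ z 1 ∈ Ioo (0 : ℝ) 1)
    (hT : ∀ z ∈ Ω, z 0 ∈ Icc p0 p2 ∪ Icc p4 p6 → z 1 < W)
    {μ m e : ℝ} (hμ : 1 ≤ μ) (hm0 : 0 ≤ m) (hmμ : m ≤ μ) (he0 : 0 < e) (he : 16 * e * μ ≤ 1 / 6)
    (hWe : 32 * W * μ ^ 2 ≤ e ^ 2) (hWK : 2 * (1 + 8 * K ^ 2) * W * μ ≤ e / 10)
    (hm : ∀ ψ, IsTest Ω ψ → (∫ z in vstrip (Ioo p1 p5)ᶜ, ψ z ^ 4) = 0 →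
      m * Real.sqrt (∫ z, ψ z ^ 4) ≤ En ψ)
    {φ : E2 → ℝ} (hφ : IsTest Ω φ) (h1 : ∫ z, φ z ^ 4 = 1)
    (hlo : (4 * e) ^ 2 ≤ ∫ z in vstrip (Ioo p1 p5)ᶜ, φ z ^ 4)
    (hhi : ∫ z in vstrip (Ioo p1 p5)ᶜ, φ z ^ 4 ≤ (16 * e) ^ 2) :
    m + e / 5 ≤ En φ := by
  have he1 : e ≤ 1 / 96 := by nlinarith
  by_cases hE : 2 * μ < En φ
  · linarith
  push Not at hE
  set O := vstrip (Ioo p1 p5)ᶜ with hO
  set T := vstrip (Icc p0 p2 ∪ Icc p4 p6) with hTd
  have hOm : MeasurableSet O := measurableSet_vstrip measurableSet_Ioo.compl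
  have hTm : MeasurableSet T := measurableSet_vstrip (measurableSet_Icc.union measurableSet_Icc)
  have hIm : MeasurableSet (vstrip (Ioo p1 p5)) := measurableSet_vstrip measurableSet_Ioo
  set θ := ∫ z in O, φ z ^ 4 with hθ
  have t1 := test_mulx hcut.s1 hφ
  have t2 := test_mulx hcut.s2 hφ
  have i4 := integrable_pow hφ 4 (by norm_num)
  have i41 := integrable_pow t1 4 (by norm_num)
  have i42 := integrable_pow t2 4 (by norm_num)
  have hEn := cut_energy hcut hW hW1 hΩ hT hφ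
  have hE0 := En_nonneg φ
  -- tube mass
  have hη : ∫ z in T, φ z ^ 4 ≤ e ^ 2 := by
    have h := strip_ineq (test_c1 hφ) hφ.2.1 (measurableSet_Icc.union measurableSet_Icc) hW
      (I := Icc p0 p2 ∪ Icc p4 p6) (by
        intro z hz hz1
        by_contra hne
        have hzΩ : z ∈ Ω := by
          by_contra h; exact hne (test_zero_off hφ h)
        exact hz1 ⟨(hΩ z hzΩ).2.1, hT z hzΩ hz⟩) (by
        intro z hz
        by_contra hne
        have hzΩ : z ∈ Ω := by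
          by_contra h; exact hne (test_zero_off hφ h)
        exact hz (hΩ z hzΩ).2)
    refine h.trans (le_trans ?_ hWe)
    have : En φ ^ 2 ≤ (2 * μ) ^ 2 := pow_le_pow_left₀ hE0 hE 2
    nlinarith
  -- inside mass
  have hin : ∫ z in vstrip (Ioo p1 p5), φ z ^ 4 = 1 - θ := by
    have h := integral_add_compl hIm i4
    have hc : (vstrip (Ioo p1 p5))ᶜ = O := by
      ext z; simp [hO, vstrip]
    rw [hc, h1] at h
    linarith
  have hM1 : 1 - θ - e ^ 2 ≤ ∫ z : E2, (χ1 (z 0) * φ z) ^ 4 := by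
    have h := mass_lower (ψ := fun z => χ1 (z 0) * φ z) hIm hTm i4 i41 (by
      intro z hz hzT
      have h2 := hcut.one (z 0) hzT
      have h3 := hcut.z2 (z 0) (Ioo_subset_Icc_self hz)
      have h4 : χ1 (z 0) = 1 := by linarith
      show χ1 (z 0) * φ z = φ z
      rw [h4, one_mul])
    linarith
  have hM2 : θ - e ^ 2 ≤ ∫ z : E2, (χ2 (z 0) * φ z) ^ 4 := by
    have h := mass_lower (ψ := fun z => χ2 (z 0) * φ z) hOm hTm i4 i42 (by
      intro z hz hzT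
      have h2 := hcut.one (z 0) hzT
      have h3 := hcut.z1 (z 0) hz
      have h4 : χ2 (z 0) = 1 := by linarith
      show χ2 (z 0) * φ z = φ z
      rw [h4, one_mul])
    linarith
  have hM1' : ∫ z : E2, (χ1 (z 0) * φ z) ^ 4 ≤ 1 := by
    rw [← h1]
    apply integral_mono i41 i4
    intro z
    show (χ1 (z 0) * φ z) ^ 4 ≤ φ z ^ 4
    rw [mul_pow]
    have h2 : χ1 (z 0) ≤ 1 := by linarith [hcut.le (z 0), hcut.n2 (z 0)]
    have h3 : χ1 (z 0) ^ 4 ≤ 1 := pow_le_one₀ (hcut.n1 _) h2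
    have h4 : 0 ≤ φ z ^ 4 := by positivity
    nlinarith
  set M1 := ∫ z : E2, (χ1 (z 0) * φ z) ^ 4 with hM1d
  set M2 := ∫ z : E2, (χ2 (z 0) * φ z) ^ 4 with hM2d
  -- energy bounds
  have hE1 : m * Real.sqrt M1 ≤ En (fun z => χ1 (z 0) * φ z) := by
    apply hm _ t1
    rw [setIntegral_eq_zero_of_forall_eq_zero]
    intro z hz
    rw [hcut.z1 (z 0) hz]; ring
  have hE2 : Real.sqrt M2 ≤ 3 * En (fun z => χ2 (z 0) * φ z) := by
    have h := global_bound hΩ t2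
    have hp := En_nonneg (fun z => χ2 (z 0) * φ z)
    apply Real.sqrt_le_iff.mpr
    constructor
    · linarith
    · nlinarith
  -- scalars
  set A := Real.sqrt θ with hA
  have hθ0 : 0 ≤ θ := le_trans (by positivity) hlo
  have hA2 : A ^ 2 = θ := Real.sq_sqrt hθ0
  have hA0 : 0 ≤ A := Real.sqrt_nonneg _
  have hAlo : 4 * e ≤ A := by
    apply Real.le_sqrt_of_sq_le hlo
  have hAhi : A ≤ 16 * e := by
    apply Real.sqrt_le_iff.mpr
    exact ⟨by positivity, hhi⟩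
  have hs1 : 1 - A ^ 2 - e ^ 2 ≤ Real.sqrt M1 := by
    rw [hA2]
    by_cases hneg : 1 - θ - e ^ 2 ≤ 0
    · exact hneg.trans (Real.sqrt_nonneg _)
    · push Not at hneg
      apply Real.le_sqrt_of_sq_le
      nlinarith
  have hs2 : A - e ≤ Real.sqrt M2 := by
    apply Real.le_sqrt_of_sq_le
    nlinarith
  have f1 : m * (1 - A ^ 2 - e ^ 2) ≤ En (fun z => χ1 (z 0) * φ z) :=
    (mul_le_mul_of_nonneg_left hs1 hm0).trans hE1
  have f2 : A - e ≤ 3 * En (fun z => χ2 (z 0) * φ z) := hs2.trans hE2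
  have g1 : m * A ^ 2 ≤ A / 6 := by
    have : m * A ^ 2 ≤ μ * (A * (16 * e)) := by
      rw [sq]
      apply mul_le_mul hmμ (mul_le_mul_of_nonneg_left hAhi hA0) (by positivity) (by linarith)
    have h2 : μ * (A * (16 * e)) = A * (16 * e * μ) := by ring
    have h3 : A * (16 * e * μ) ≤ A * (1 / 6) := mul_le_mul_of_nonneg_left he hA0
    linarith
  have g2 : m * e ^ 2 ≤ e / 96 := by
    have : m * e ^ 2 ≤ μ * e ^ 2 := mul_le_mul_of_nonneg_right hmμ (by positivity)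
    have h2 : μ * e ^ 2 = e * (16 * e * μ) / 16 := by ring
    have h3 : e * (16 * e * μ) ≤ e * (1 / 6) := mul_le_mul_of_nonneg_left he he0.le
    linarith
  have g3 : (1 + (1 + 8 * K ^ 2) * W) * En φ ≤ En φ + e / 10 := by
    have h2 : (1 + 8 * K ^ 2) * W * En φ ≤ (1 + 8 * K ^ 2) * W * (2 * μ) :=
      mul_le_mul_of_nonneg_left hE (by positivity)
    nlinarith
  nlinarith

end Pool.Agent.H57.Rooms
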