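import Mathlib

open MeasureTheory Filter Topology
open scoped ContDiff

namespace Pool.Agent.MP_21f5b8_an

/-- Test functions: `φ ∈ C_c^∞(Ω)`, regarded as functions on all of `ℝ^N`. -/
def IsTest {N : ℕ} (Ω : Set (EuclideanSpace ℝ (Fin N))) (φ : EuclideanSpace ℝ (Fin N) → ℝ) :
    Prop :=
  ContDiff ℝ ∞ φ ∧ HasCompactSupport φ ∧ tsupport φ ⊆ Ω

/-- `u ∈ D_0^{1,2}(Ω)` with gradient `G`: `u ∈ L^q` is the `L^q`-limit of test functions whose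
gradients converge in `L^2` to `G`. -/
def InD {N : ℕ} (q : ℝ) (Ω : Set (EuclideanSpace ℝ (Fin N)))
    (u : EuclideanSpace ℝ (Fin N) → ℝ)
    (G : EuclideanSpace ℝ (Fin N) → EuclideanSpace ℝ (Fin N)) : Prop :=
  MemLp u (ENNReal.ofReal q) volume ∧ MemLp G 2 volume ∧
  ∃ φ : ℕ → EuclideanSpace ℝ (Fin N) → ℝ, (∀ n, IsTest Ω (φ n)) ∧
    Tendsto (fun n => eLpNorm (fun x => φ n x - u x) (ENNReal.ofReal q) volume) atTop (𝓝 0) ∧
    Tendsto (fun n => eLpNorm (fun x => gradient (φ n) x - G x) 2 volume) atTop (𝓝 0)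

/-- `Ω` is `q`-admissible: every sequence of test functions that is bounded in `D_0^{1,2}(Ω)` has
a subsequence converging in `L^q`, i.e. `D_0^{1,2}(Ω) → L^q(Ω)` is compact. -/
def QAdmissible {N : ℕ} (q : ℝ) (Ω : Set (EuclideanSpace ℝ (Fin N))) : Prop :=
  ∀ φ : ℕ → EuclideanSpace ℝ (Fin N) → ℝ, (∀ n, IsTest Ω (φ n)) →
    (∃ C : ℝ, ∀ n, ∫ x, ‖gradient (φ n) x‖ ^ 2 ≤ C) →
    ∃ u : EuclideanSpace ℝ (Fin N) → ℝ, MemLp u (ENNReal.ofReal q) volume ∧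
      ∃ k : ℕ → ℕ, StrictMono k ∧
        Tendsto (fun n => eLpNorm (fun x => φ (k n) x - u x) (ENNReal.ofReal q) volume)
          atTop (𝓝 0)

/-- `lam` is a `q`-eigenvalue of `Ω` with eigenfunction `u ∈ D_0^{1,2}(Ω)`, `∇u = G`:
`‖u‖_{L^q} = 1` and `-Δu = lam |u|^{q-2} u` weakly in `Ω`. -/
def IsQEigenfunction {N : ℕ} (q : ℝ) (Ω : Set (EuclideanSpace ℝ (Fin N))) (lam : ℝ)
    (u : EuclideanSpace ℝ (Fin N) → ℝ)
    (G : EuclideanSpace ℝ (Fin N) → EuclideanSpace ℝ (Fin N)) : Prop :=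
  InD q Ω u G ∧ eLpNorm u (ENNReal.ofReal q) volume = 1 ∧
  ∀ ψ : EuclideanSpace ℝ (Fin N) → ℝ, IsTest Ω ψ →
    ∫ x, inner ℝ (G x) (gradient ψ x) = lam * ∫ x, |u x| ^ (q - 2) * u x * ψ x

/-- `lam` is a `q`-eigenvalue of `Ω` having a constant-sign eigenfunction. -/
def HasConstantSignEigenfunction {N : ℕ} (q : ℝ) (Ω : Set (EuclideanSpace ℝ (Fin N)))
    (lam : ℝ) : Prop :=
  ∃ (u : EuclideanSpace ℝ (Fin N) → ℝ)
    (G : EuclideanSpace ℝ (Fin N) → EuclideanSpace ℝ (Fin N)),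
    IsQEigenfunction q Ω lam u G ∧ ((∀ᵐ x, 0 ≤ u x) ∨ (∀ᵐ x, u x ≤ 0))

end Pool.Agent.MP_21f5b8_an
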