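import Pool.Agent.H57.Rooms.Eigen

open MeasureTheory Set Filter Topology
open scoped ContDiff
open Pool.Agent.MP_21f5b8_an

namespace Pool.Agent.H57.Rooms

variable {Ω : Set E2} {φ ψ : E2 → ℝ}

/-- subsets of the open unit square are admissible -/
theorem admissible (hΩ : ∀ z ∈ Ω, z 0 ∈ Ioo (0 : ℝ) 1 ∧ z 1 ∈ Ioo (0 : ℝ) 1) :
    QAdmissible 4 Ω := by
  rintro φ hφ ⟨C, hC⟩
  obtain ⟨k, hk, hcau⟩ := rellich (φ := fun n p => φ n (toE p))
    (fun n => contDiff_comp_toE (test_c1 (hφ n))) (fun n => hcs_comp_toE (hφ n).2.1)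
    (by
      intro n p hp
      apply test_zero_off (hφ n)
      intro h
      exact hp (hΩ _ h))
    (C := C) (by
      intro n
      rw [en_comp_toE (test_c1 (hφ n))]
      exact hC n)
  have hc : CauchySeq (fun n => (memLp_test (hφ (k n)) 4).toLp (φ (k n))) := by
    rw [Metric.cauchySeq_iff]
    intro ε hε
    obtain ⟨N, hN⟩ := hcau (ε ^ 4) (by positivity)
    refine ⟨N, fun a ha b hb => ?_⟩
    have h1 := hN a ha b hb
    rw [integral_toE (fun z => (φ (k a) z - φ (k b) z) ^ 4)] at h1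
    rw [dist_eq_norm, ← MemLp.toLp_sub]
    have h2 := norm_toLp_pow4 ((memLp_test (hφ (k a)) 4).sub (memLp_test (hφ (k b)) 4))
    have h3 : ‖((memLp_test (hφ (k a)) 4).sub (memLp_test (hφ (k b)) 4)).toLp _‖ ^ 4 < ε ^ 4 := by
      rw [h2]; exact h1
    exact lt_of_pow_lt_pow_left₀ 4 hε.le h3
  obtain ⟨u, hu⟩ := cauchySeq_tendsto_of_complete hc
  refine ⟨u, ?_, k, hk, ?_⟩
  · rw [ofReal4]; exact Lp.memLp u
  · rw [ofReal4]
    have h := (Lp.tendsto_Lp_iff_tendsto_eLpNorm' _ u).mp hu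
    refine h.congr (fun n => ?_)
    apply eLpNorm_congr_ae
    filter_upwards [(memLp_test (hφ (k n)) 4).coeFn_toLp] with z hz
    show (memLp_test (hφ (k n)) 4).toLp (φ (k n)) z - u z = _
    rw [hz]

lemma normalize {N : ℝ} (hN : 0 < N) :
    ∃ c : ℝ, 0 < c ∧ c ^ 4 = N⁻¹ ∧ c ^ 2 * Real.sqrt N = 1 := by
  have hi : 0 < N⁻¹ := inv_pos.mpr hN
  refine ⟨(N⁻¹) ^ ((1 : ℝ) / 4), Real.rpow_pos_of_pos hi _, ?_, ?_⟩
  · rw [← Real.rpow_natCast, ← Real.rpow_mul hi.le]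
    norm_num
  · have h1 : ((N⁻¹) ^ ((1 : ℝ) / 4)) ^ 2 = Real.sqrt (N⁻¹) := by
      rw [← Real.rpow_natCast, ← Real.rpow_mul hi.le, Real.sqrt_eq_rpow]
      norm_num
    rw [h1, Real.sqrt_inv]
    exact inv_mul_cancel₀ (Real.sqrt_pos.mpr hN).ne'

lemma exists_bump {R : Set E2} (hR : IsOpen R) (hne : R.Nonempty) :
    ∃ φ, IsTest R φ ∧ ∫ z, φ z ^ 4 = 1 := by
  obtain ⟨c, hc⟩ := hne
  obtain ⟨ε, hε, hball⟩ := Metric.isOpen_iff.mp hR c hc
  let f : ContDiffBump c := ⟨ε / 4, ε / 2, by positivity, by linarith⟩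
  have ht : IsTest R f := by
    refine ⟨f.contDiff, f.hasCompactSupport, ?_⟩
    rw [f.tsupport_eq]
    refine (Metric.closedBall_subset_ball ?_).trans hball
    show ε / 2 < ε
    linarith
  have hpos : 0 < ∫ z, f z ^ 4 := by
    apply Continuous.integral_pos_of_hasCompactSupport_nonneg_nonzero (x := c)
    · exact cont_pow f.continuous 4
    · exact hcs_pow f.hasCompactSupport 4 (by norm_num)
    · intro z; positivity
    · have : f c = 1 := f.one_of_mem_closedBall (by simp [f.rIn_pos.le])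
      rw [this]; norm_num
  obtain ⟨a, ha, ha4, -⟩ := normalize hpos
  refine ⟨fun z => a * f z, test_smul a ht, ?_⟩
  simp_rw [mul_pow, ha4]
  rw [integral_const_mul]
  exact inv_mul_cancel₀ hpos.ne'

lemma IsTest.mono {Ω' : Set E2} (h : IsTest Ω φ) (hs : Ω ⊆ Ω') : IsTest Ω' φ :=
  ⟨h.1, h.2.1, h.2.2.trans hs⟩

/-- One room gives an eigenvalue with a nonnegative eigenfunction, bounded below in terms of the
height of the room. -/
theorem room_eigen {p0 p1 p2 p4 p5 p6 K : ℝ} {χ1 χ2 : ℝ → ℝ}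
    (hcut : Cut p0 p1 p2 p4 p5 p6 χ1 χ2 K) {W : ℝ} (hW : 0 < W) (hW1 : W ≤ 1)
    (hΩ : ∀ z ∈ Ω, z 0 ∈ Ioo (0 : ℝ) 1 ∧ z 1 ∈ Ioo (0 : ℝ) 1)
    (hT : ∀ z ∈ Ω, z 0 ∈ Icc p0 p2 ∪ Icc p4 p6 → z 1 < W)
    {h : ℝ} (hh : 0 < h) (hroom : ∀ z ∈ Ω, z 0 ∈ Ioo p1 p5 → z 1 < h)
    {μ e : ℝ} (hμ : 1 ≤ μ) (he0 : 0 < e) (he : 16 * e * μ ≤ 1 / 6)
    (hWe : 32 * W * μ ^ 2 ≤ e ^ 2) (hWK : 2 * (1 + 8 * K ^ 2) * W * μ ≤ e / 10)
    {φ0 : E2 → ℝ} (hφ0 : IsTest Ω φ0) (h01 : ∫ z, φ0 z ^ 4 = 1)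
    (h02 : ∫ z in vstrip (Ioo p1 p5)ᶜ, φ0 z ^ 4 = 0) (h0μ : En φ0 ≤ μ) :
    ∃ m : ℝ, HasConstantSignEigenfunction 4 Ω m ∧ 0 < m ∧ 1 / (16 * h) ≤ m ^ 2 := by
  set O := vstrip (Ioo p1 p5)ᶜ with hO
  have hOm : MeasurableSet O := measurableSet_vstrip measurableSet_Ioo.compl
  have hIm : MeasurableSet (vstrip (Ioo p1 p5)) := measurableSet_vstrip measurableSet_Ioo
  set d := Real.sqrt (16 * e) with hd
  have hd0 : 0 < d := Real.sqrt_pos.mpr (by positivity)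
  have hd2 : d ^ 2 = 16 * e := Real.sq_sqrt (by positivity)
  have hd4 : d ^ 4 = (16 * e) ^ 2 := by rw [← hd2]; ring
  have hd4' : (d / 2) ^ 4 = (4 * e) ^ 2 := by
    have : (d / 2) ^ 4 = d ^ 4 / 16 := by ring
    rw [this, hd4]; ring
  have he1 : e ≤ 1 / 96 := by nlinarith
  set S : Set ℝ := {E | ∃ φ, IsTest Ω φ ∧ ∫ z, φ z ^ 4 = 1 ∧ ∫ z in O, φ z ^ 4 ≤ d ^ 4 ∧
    E = En φ} with hS
  have hSne : S.Nonempty := ⟨En φ0, φ0, hφ0, h01, by rw [h02]; positivity, rfl⟩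
  have hE2 : ∀ φ, IsTest Ω φ → ∫ z, φ z ^ 4 = 1 → ∫ z in O, φ z ^ 4 ≤ d ^ 4 →
      1 / (16 * h) ≤ En φ ^ 2 := by
    intro φ hφ h1 h2
    have hin : (1 : ℝ) / 2 ≤ ∫ z in vstrip (Ioo p1 p5), φ z ^ 4 := by
      have h3 := integral_add_compl hIm (integrable_pow hφ 4 (by norm_num))
      have hc : (vstrip (Ioo p1 p5))ᶜ = O := by
        ext z; simp [hO, vstrip]
      rw [hc, h1] at h3
      have : d ^ 4 ≤ 1 / 2 := by rw [hd4]; nlinarith
      linarith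
    have h3 := strip_ineq (test_c1 hφ) hφ.2.1 measurableSet_Ioo hh (I := Ioo p1 p5) (by
        intro z hz hz1
        by_contra hne
        have hzΩ : z ∈ Ω := by
          by_contra h; exact hne (test_zero_off hφ h)
        exact hz1 ⟨(hΩ z hzΩ).2.1, hroom z hzΩ hz⟩) (by
        intro z hz
        by_contra hne
        have hzΩ : z ∈ Ω := by
          by_contra h; exact hne (test_zero_off hφ h)
        exact hz (hΩ z hzΩ).2)
    rw [div_le_iff₀ (by positivity)]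
    linarith
  have hbdd : BddBelow S := ⟨0, by
    rintro E ⟨φ, -, -, -, rfl⟩
    exact En_nonneg φ⟩
  set m := sInf S with hm
  have hlow : ∀ φ, IsTest Ω φ → ∫ z, φ z ^ 4 = 1 → ∫ z in O, φ z ^ 4 ≤ d ^ 4 → m ≤ En φ := by
    intro φ h1 h2 h3
    exact csInf_le hbdd ⟨φ, h1, h2, h3, rfl⟩
  have hmμ : m ≤ μ := (hlow φ0 hφ0 h01 (by rw [h02]; positivity)).trans h0μ
  have hm_lower : Real.sqrt (1 / (16 * h)) ≤ m := by
    apply le_csInf hSne
    rintro E ⟨φ, h1, h2, h3, rfl⟩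
    apply Real.sqrt_le_iff.mpr
    exact ⟨En_nonneg φ, hE2 φ h1 h2 h3⟩
  have hs0 : 0 < Real.sqrt (1 / (16 * h)) := Real.sqrt_pos.mpr (by positivity)
  have hm0 : 0 < m := hs0.trans_le hm_lower
  have hmsq : 1 / (16 * h) ≤ m ^ 2 := by
    have h1 := pow_le_pow_left₀ hs0.le hm_lower 2
    rwa [Real.sq_sqrt (by positivity)] at h1
  refine ⟨m, ?_, hm0, hmsq⟩
  apply exists_eigen (admissible hΩ) hOm hd0 (κ := e / 5) (by positivity) hm0 hlow
  · intro ε hε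
    obtain ⟨E, ⟨φ, h1, h2, h3, rfl⟩, h4⟩ := exists_lt_of_csInf_lt hSne
      (show sInf S < m + ε by linarith)
    exact ⟨φ, h1, h2, h3, h4⟩
  · intro φ h1 h2 h3 h4
    rw [hd4'] at h3
    rw [hd4] at h4
    refine barrier hcut hW hW1 hΩ hT hμ hm0.le hmμ he0 he hWe hWK ?_ h1 h2 h3 h4
    intro ψ hψ hψO
    by_cases hN : ∫ z, ψ z ^ 4 = 0
    · rw [hN, Real.sqrt_zero, mul_zero]; exact En_nonneg ψ
    · have hN0 : 0 < ∫ z, ψ z ^ 4 :=
        lt_of_le_of_ne (integral_nonneg (fun z => by positivity)) (Ne.symm hN)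
      obtain ⟨c, hc0, hc4, hc2⟩ := normalize hN0
      have h5 := hlow (fun z => c * ψ z) (test_smul c hψ) (by
        simp_rw [mul_pow, hc4]
        rw [integral_const_mul]
        exact inv_mul_cancel₀ hN0.ne') (by
        simp_rw [mul_pow]
        rw [integral_const_mul, hψO, mul_zero]
        positivity)
      rw [En_smul c hψ] at h5
      have h6 := mul_le_mul_of_nonneg_right h5 (Real.sqrt_nonneg (∫ z, ψ z ^ 4))
      have h7 : c ^ 2 * En ψ * Real.sqrt (∫ z, ψ z ^ 4) = En ψ := by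
        calc c ^ 2 * En ψ * Real.sqrt (∫ z, ψ z ^ 4)
            = (c ^ 2 * Real.sqrt (∫ z, ψ z ^ 4)) * En ψ := by ring
          _ = En ψ := by rw [hc2, one_mul]
      rw [h7] at h6
      exact h6

/-! ### The domain -/

/-- breakpoints -/
noncomputable def xk (k : ℕ) : ℝ := 1 - 1 / ((k : ℝ) + 1)

lemma xk_mono : StrictMono xk := by
  intro a b hab
  unfold xk
  have h1 : (a : ℝ) + 1 < (b : ℝ) + 1 := by
    have : (a : ℝ) < b := by exact_mod_cast hab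
    linarith
  have h2 : 1 / ((b : ℝ) + 1) < 1 / ((a : ℝ) + 1) := one_div_lt_one_div_of_lt (by positivity) h1
  linarith

lemma xk_nonneg (k : ℕ) : 0 ≤ xk k := by
  unfold xk
  have : 1 / ((k : ℝ) + 1) ≤ 1 := by
    rw [div_le_one (by positivity)]
    have : (0 : ℝ) ≤ k := Nat.cast_nonneg k
    linarith
  linarith

lemma xk_lt_one (k : ℕ) : xk k < 1 := by
  unfold xk
  have : 0 < 1 / ((k : ℝ) + 1) := by positivity
  linarith

/-- open rectangles -/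
def rect (a b c d : ℝ) : Set E2 := {z | z 0 ∈ Ioo a b ∧ z 1 ∈ Ioo c d}

lemma isOpen_rect (a b c d : ℝ) : IsOpen (rect a b c d) := by
  have h0 : Continuous (fun z : E2 => z 0) := by fun_prop
  have h1 : Continuous (fun z : E2 => z 1) := by fun_prop
  exact (isOpen_Ioo.preimage h0).inter (isOpen_Ioo.preimage h1)

lemma convex_rect (a b c d : ℝ) : Convex ℝ (rect a b c d) := by
  have h0 : Convex ℝ ((EuclideanSpace.proj (𝕜 := ℝ) (0 : Fin 2)) ⁻¹' (Ioo a b) : Set E2) :=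
    (convex_Ioo a b).is_linear_preimage (EuclideanSpace.proj (𝕜 := ℝ) (0 : Fin 2)).isLinear
  have h1 : Convex ℝ ((EuclideanSpace.proj (𝕜 := ℝ) (1 : Fin 2)) ⁻¹' (Ioo c d) : Set E2) :=
    (convex_Ioo c d).is_linear_preimage (EuclideanSpace.proj (𝕜 := ℝ) (1 : Fin 2)).isLinear
  exact h0.inter h1

lemma rect_mem {a b c d x y : ℝ} (hx : x ∈ Ioo a b) (hy : y ∈ Ioo c d) :
    toE (x, y) ∈ rect a b c d := ⟨hx, hy⟩

/-- the `n`-th passage -/
noncomputable def tube (w : ℕ → ℝ) (n : ℕ) : Set E2 :=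
  rect (xk (4 * n - 1)) (xk (4 * n + 3)) 0 (w n)

/-- the `n`-th room -/
noncomputable def room (n : ℕ) : Set E2 :=
  rect (xk (4 * n + 2)) (xk (4 * n + 4)) 0 (1 / ((n : ℝ) + 1))

/-- rooms and passages -/
noncomputable def dom (w : ℕ → ℝ) : Set E2 := ⋃ n, (tube w n ∪ room n)

lemma isOpen_dom (w : ℕ → ℝ) : IsOpen (dom w) :=
  isOpen_iUnion (fun _ => (isOpen_rect _ _ _ _).union (isOpen_rect _ _ _ _))

lemma height_le_one (n : ℕ) : 1 / ((n : ℝ) + 1) ≤ 1 := by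
  rw [div_le_one (by positivity)]
  have : (0 : ℝ) ≤ n := Nat.cast_nonneg n
  linarith

lemma isConnected_dom {w : ℕ → ℝ} (hw : ∀ n, 0 < w n) : IsConnected (dom w) := by
  have hmid : ∀ {a b : ℝ}, a < b → (a + b) / 2 ∈ Ioo a b := by
    intro a b hab
    constructor <;> linarith
  have hy : ∀ n : ℕ, ∃ y : ℝ, ∀ m : ℕ, m = n ∨ m = n + 1 →
      y ∈ Ioo 0 (w m) ∧ y ∈ Ioo 0 (1 / ((m : ℝ) + 1)) := by
    intro n
    set r := min (min (w n) (w (n + 1))) (min (1 / ((n : ℝ) + 1)) (1 / (((n + 1 : ℕ) : ℝ) + 1)))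
      with hr
    have hr0 : 0 < r := by
      apply lt_min (lt_min (hw _) (hw _))
      apply lt_min <;> positivity
    refine ⟨r / 2, ?_⟩
    rintro m (rfl | rfl)
    · refine ⟨⟨by linarith, ?_⟩, ⟨by linarith, ?_⟩⟩
      · have : r ≤ w m := (min_le_left _ _).trans (min_le_left _ _)
        linarith
      · have : r ≤ 1 / ((m : ℝ) + 1) := (min_le_right _ _).trans (min_le_left _ _)
        linarith
    · refine ⟨⟨by linarith, ?_⟩, ⟨by linarith, ?_⟩⟩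
      · have : r ≤ w (n + 1) := (min_le_left _ _).trans (min_le_right _ _)
        linarith
      · have : r ≤ 1 / (((n + 1 : ℕ) : ℝ) + 1) := (min_le_right _ _).trans (min_le_right _ _)
        linarith
  apply IsConnected.iUnion_of_chain
  · intro n
    obtain ⟨y, hy⟩ := hy n
    obtain ⟨h1, h2⟩ := hy n (Or.inl rfl)
    have hlt : xk (4 * n + 2) < xk (4 * n + 3) := xk_mono (by omega)
    have hx := hmid hlt
    have hmem1 : toE ((xk (4 * n + 2) + xk (4 * n + 3)) / 2, y) ∈ tube w n := by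
      apply rect_mem _ h1
      refine ⟨lt_of_le_of_lt ?_ hx.1, hx.2⟩
      exact xk_mono.monotone (by omega)
    have hmem2 : toE ((xk (4 * n + 2) + xk (4 * n + 3)) / 2, y) ∈ room n := by
      apply rect_mem _ h2
      exact ⟨hx.1, hx.2.trans (xk_mono (by omega))⟩
    apply IsConnected.union ⟨_, hmem1, hmem2⟩
    · exact ⟨⟨_, hmem1⟩, (convex_rect _ _ _ _).isPreconnected⟩
    · exact ⟨⟨_, hmem2⟩, (convex_rect _ _ _ _).isPreconnected⟩
  · intro n
    obtain ⟨y, hy⟩ := hy n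
    obtain ⟨-, h1⟩ := hy n (Or.inl rfl)
    obtain ⟨h2, -⟩ := hy (n + 1) (Or.inr rfl)
    have hlt : xk (4 * n + 3) < xk (4 * n + 4) := xk_mono (by omega)
    have hx := hmid hlt
    refine ⟨toE ((xk (4 * n + 3) + xk (4 * n + 4)) / 2, y), Or.inr ?_, Or.inl ?_⟩
    · apply rect_mem _ h1
      exact ⟨(xk_mono (by omega)).trans hx.1, hx.2⟩
    · show _ ∈ tube w (n + 1)
      apply rect_mem _ h2
      refine ⟨lt_of_le_of_lt (xk_mono.monotone (by omega)) hx.1,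
        hx.2.trans (xk_mono (by omega))⟩

end Pool.Agent.H57.Rooms
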