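import Pool.Agent.H57.Rooms.Exist

open MeasureTheory Set Filter Topology
open scoped ContDiff
open Pool.Agent.MP_21f5b8_an

namespace Pool.Agent.H57.Rooms

variable {Ω : Set E2} {φ ψ : E2 → ℝ}

lemma ofReal4 : ENNReal.ofReal 4 = 4 := by norm_num

/-- compactness in the form needed by the abstract lemma -/
lemma comp_of_admissible (hΩ : QAdmissible 4 Ω) (v : ℕ → X4 × Y2) (hv : ∀ n, v n ∈ VV Ω)
    (hC : ∃ C, ∀ n, ‖(v n).2‖ ^ 2 ≤ C) :
    ∃ u : X4, ∃ k : ℕ → ℕ, StrictMono k ∧ Tendsto (fun n => (v (k n)).1) atTop (𝓝 u) := by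
  choose φ hφ hvφ using hv
  obtain ⟨C, hC⟩ := hC
  obtain ⟨u, hu, k, hk, hlim⟩ := hΩ φ hφ ⟨C, fun n => by
    have := hC n
    rw [hvφ n, norm_tl_snd] at this
    exact this⟩
  rw [ofReal4] at hu hlim
  refine ⟨hu.toLp u, k, hk, ?_⟩
  have h := (Lp.tendsto_Lp_iff_tendsto_eLpNorm'' (fun n => φ (k n))
    (fun n => memLp_test (hφ (k n)) 4) u hu (fi := atTop)).mpr hlim
  refine h.congr (fun n => ?_)
  rw [hvφ (k n)]
  rfl

lemma root4 {a b : ℝ} (hb : 0 ≤ b) (h : a ^ 4 ≤ b ^ 4) : a ≤ b :=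
  le_of_pow_le_pow_left₀ (by norm_num) hb h

lemma eq_one_of_pow4 {a : ℝ} (ha : 0 ≤ a) (h : a ^ 4 = 1) : a = 1 :=
  le_antisymm (root4 zero_le_one (by rw [h]; norm_num)) (root4 ha (by rw [h]; norm_num))

lemma mix_bound (a b : ℝ) (j k : ℕ) (hjk : j + k = 4) : |a ^ j * b ^ k| ≤ a ^ 4 + b ^ 4 := by
  rw [abs_mul, abs_pow, abs_pow]
  have ha : a ^ 4 = |a| ^ 4 := by rw [← abs_pow, abs_of_nonneg (by positivity)]
  have hb : b ^ 4 = |b| ^ 4 := by rw [← abs_pow, abs_of_nonneg (by positivity)]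
  rw [ha, hb]
  have h1 : |a| ^ j ≤ (max |a| |b|) ^ j := pow_le_pow_left₀ (abs_nonneg _) (le_max_left _ _) _
  have h2 : |b| ^ k ≤ (max |a| |b|) ^ k := pow_le_pow_left₀ (abs_nonneg _) (le_max_right _ _) _
  have h3 : |a| ^ j * |b| ^ k ≤ (max |a| |b|) ^ 4 := by
    rw [← hjk, pow_add]
    exact mul_le_mul h1 h2 (by positivity) (by positivity)
  refine h3.trans ?_
  rcases max_cases |a| |b| with ⟨h, _⟩ | ⟨h, _⟩ <;> rw [h]
  · have : 0 ≤ |b| ^ 4 := by positivity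
    linarith
  · have : 0 ≤ |a| ^ 4 := by positivity
    linarith

lemma integrable_u4 (u : X4) : Integrable (fun z => u z ^ 4) := by
  have h := (Lp.memLp u).integrable_norm_rpow (by norm_num) (by norm_num)
  refine h.congr (ae_of_all _ (fun z => ?_))
  show ‖u z‖ ^ (4 : ENNReal).toReal = u z ^ 4
  rw [show (4 : ENNReal).toReal = ((4 : ℕ) : ℝ) by norm_num, Real.rpow_natCast,
      Real.norm_eq_abs, ← abs_pow, abs_of_nonneg (by positivity)]

lemma integrable_mix (u : X4) (h : IsTest Ω ψ) (j k : ℕ) (hjk : j + k = 4) :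
    Integrable (fun z => u z ^ j * ψ z ^ k) := by
  apply Integrable.mono' ((integrable_u4 u).add (integrable_pow h 4 (by norm_num)))
  · exact ((Lp.aestronglyMeasurable u).pow j).mul
      (h.1.continuous.aestronglyMeasurable.pow k)
  · refine ae_of_all _ (fun z => ?_)
    rw [Real.norm_eq_abs]
    exact mix_bound _ _ j k hjk

/-- integrals of polynomial expressions of `Lp 4` functions -/
lemma pow4_expand (u : X4) (h : IsTest Ω ψ) (t : ℝ) :
    ‖u + t • (tl h).1‖ ^ 4 = (∫ z, u z ^ 4) + t * (4 * ∫ z, u z ^ 3 * ψ z) +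
      t ^ 2 * (6 * ∫ z, u z ^ 2 * ψ z ^ 2) + t ^ 3 * (4 * ∫ z, u z * ψ z ^ 3) +
      t ^ 4 * ∫ z, ψ z ^ 4 := by
  rw [norm_pow4]
  have i0 := integrable_u4 u
  have i1 : Integrable (fun z => u z ^ 3 * ψ z) := by
    simpa using integrable_mix u h 3 1 (by norm_num)
  have i2 : Integrable (fun z => u z ^ 2 * ψ z ^ 2) := integrable_mix u h 2 2 (by norm_num)
  have i3 : Integrable (fun z => u z * ψ z ^ 3) := by
    simpa using integrable_mix u h 1 3 (by norm_num)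
  have i4 := integrable_pow h 4 (by norm_num)
  have e : ∫ z, (u + t • (tl h).1) z ^ 4 = ∫ z, (u z ^ 4 + (t * 4) * (u z ^ 3 * ψ z) +
      (t ^ 2 * 6) * (u z ^ 2 * ψ z ^ 2) + (t ^ 3 * 4) * (u z * ψ z ^ 3) +
      t ^ 4 * ψ z ^ 4) := by
    apply integral_congr_ae
    filter_upwards [Lp.coeFn_add u (t • (tl h).1), Lp.coeFn_smul t (tl h).1,
      (memLp_test h 4).coeFn_toLp] with z h1 h2 h3
    rw [h1, Pi.add_apply, h2, Pi.smul_apply]
    have h4 : (tl h).1 z = ψ z := h3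
    rw [h4, smul_eq_mul]
    ring
  rw [e]
  have j1 : Integrable (fun z => u z ^ 4 + (t * 4) * (u z ^ 3 * ψ z)) :=
    i0.add (i1.const_mul _)
  have j2 : Integrable (fun z => u z ^ 4 + (t * 4) * (u z ^ 3 * ψ z) +
      (t ^ 2 * 6) * (u z ^ 2 * ψ z ^ 2)) := j1.add (i2.const_mul _)
  have j3 : Integrable (fun z => u z ^ 4 + (t * 4) * (u z ^ 3 * ψ z) +
      (t ^ 2 * 6) * (u z ^ 2 * ψ z ^ 2) + (t ^ 3 * 4) * (u z * ψ z ^ 3)) :=
    j2.add (i3.const_mul _)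
  rw [integral_add j3 (i4.const_mul _), integral_add j2 (i3.const_mul _),
    integral_add j1 (i2.const_mul _), integral_add i0 (i1.const_mul _), integral_const_mul,
    integral_const_mul, integral_const_mul, integral_const_mul]
  ring

lemma pow2_expand (G W : Y2) (t : ℝ) :
    ‖G + t • W‖ ^ 2 = ‖G‖ ^ 2 + t * (2 * inner ℝ G W) + t ^ 2 * ‖W‖ ^ 2 := by
  rw [norm_add_sq_real, inner_smul_right, norm_smul, mul_pow, Real.norm_eq_abs, sq_abs]
  ring

/-- first-order condition for a polynomial inequality -/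
lemma first_order {m b c a1 a2 a3 a4 : ℝ} (hm : 0 < m)
    (h : ∀ᶠ t in 𝓝 (0 : ℝ), m ^ 2 * (1 + t * a1 + t ^ 2 * a2 + t ^ 3 * a3 + t ^ 4 * a4) ≤
      (m + t * b + t ^ 2 * c) ^ 2) : 2 * b = m * a1 := by
  set F : ℝ → ℝ := fun t => (m + t * b + t ^ 2 * c) ^ 2 -
    m ^ 2 * (1 + t * a1 + t ^ 2 * a2 + t ^ 3 * a3 + t ^ 4 * a4) with hF
  have hmin : IsLocalMin F 0 := by
    filter_upwards [h] with t ht
    simp only [hF]
    nlinarith
  have hd : HasDerivAt F (2 * m * b - m ^ 2 * a1) 0 := by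
    have h1 : HasDerivAt (fun t : ℝ => m + t * b + t ^ 2 * c) b 0 := by
      have := (((hasDerivAt_id (0 : ℝ)).mul_const b).const_add m).add
        ((hasDerivAt_pow 2 (0 : ℝ)).mul_const c)
      exact this.congr_deriv (by simp)
    have h2 : HasDerivAt (fun t : ℝ => 1 + t * a1 + t ^ 2 * a2 + t ^ 3 * a3 + t ^ 4 * a4) a1 0 := by
      have := (((((hasDerivAt_id (0 : ℝ)).mul_const a1).const_add 1).add
        ((hasDerivAt_pow 2 (0 : ℝ)).mul_const a2)).add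
        ((hasDerivAt_pow 3 (0 : ℝ)).mul_const a3)).add
        ((hasDerivAt_pow 4 (0 : ℝ)).mul_const a4)
      exact this.congr_deriv (by simp)
    have h3 := (h1.pow 2).sub (h2.const_mul (m ^ 2))
    exact h3.congr_deriv (by simp)
  have h0 := hmin.hasDerivAt_eq_zero hd
  have : m * (2 * b - m * a1) = 0 := by linarith
  rcases mul_eq_zero.mp this with h | h
  · exact absurd h hm.ne'
  · linarith

/-- Existence of a nonnegative eigenfunction from a barrier. -/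
theorem exists_eigen (hadm : QAdmissible 4 Ω) {O : Set E2} (hO : MeasurableSet O) {d m κ : ℝ}
    (hd : 0 < d) (hκ : 0 < κ) (hm : 0 < m)
    (hlow : ∀ φ, IsTest Ω φ → ∫ z, φ z ^ 4 = 1 → ∫ z in O, φ z ^ 4 ≤ d ^ 4 → m ≤ En φ)
    (happ : ∀ ε > 0, ∃ φ, IsTest Ω φ ∧ ∫ z, φ z ^ 4 = 1 ∧ ∫ z in O, φ z ^ 4 ≤ d ^ 4 ∧
      En φ < m + ε)
    (hbar : ∀ φ, IsTest Ω φ → ∫ z, φ z ^ 4 = 1 → (d / 2) ^ 4 ≤ ∫ z in O, φ z ^ 4 →
      ∫ z in O, φ z ^ 4 ≤ d ^ 4 → m + κ ≤ En φ) :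
    HasConstantSignEigenfunction 4 Ω m := by
  -- a nonnegative minimising sequence
  have happ' : ∀ n : ℕ, ∃ ψ, IsTest Ω ψ ∧ (∀ z, 0 ≤ ψ z) ∧ ∫ z, ψ z ^ 4 = 1 ∧
      ∫ z in O, ψ z ^ 4 ≤ d ^ 4 ∧ En ψ < m + 1 / ((n : ℝ) + 1) := by
    intro n
    obtain ⟨φ, hφ, h1, h2, h3⟩ := happ (min κ (1 / ((n : ℝ) + 1)))
      (lt_min hκ (by positivity))
    have h4 : ∫ z in O, φ z ^ 4 ≤ (d / 2) ^ 4 := by
      by_contra hcon
      push Not at hcon
      have := hbar φ hφ h1 hcon.le h2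
      have := min_le_left κ (1 / ((n : ℝ) + 1))
      linarith
    have h5 : En φ < m + 1 / ((n : ℝ) + 1) := by
      have := min_le_right κ (1 / ((n : ℝ) + 1))
      linarith
    exact nonneg_approx hO hφ h1 hd h4 h5
  choose ψ hψ hψ0 hψ1 hψ2 hψ3 using happ'
  set v : ℕ → X4 × Y2 := fun n => tl (hψ n) with hv
  have hvE : Tendsto (fun n => ‖(v n).2‖ ^ 2) atTop (𝓝 m) := by
    have h1 : Tendsto (fun n : ℕ => m + 1 / ((n : ℝ) + 1)) atTop (𝓝 m) := by
      have := (tendsto_one_div_add_atTop_nhds_zero_nat (𝕜 := ℝ)).const_add m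
      simpa using this
    apply tendsto_of_tendsto_of_tendsto_of_le_of_le tendsto_const_nhds h1
    · intro n
      show m ≤ ‖(tl (hψ n)).2‖ ^ 2
      rw [norm_tl_snd]
      exact hlow _ (hψ n) (hψ1 n) (hψ2 n)
    · intro n
      show ‖(tl (hψ n)).2‖ ^ 2 ≤ _
      rw [norm_tl_snd]
      exact (hψ3 n).le
  obtain ⟨k, hk, u, G, hu, hG, hu1, -, hGm, hvar⟩ := abstract_min (VV Ω) (PP O) hd hκ
    (comp_of_admissible hadm)
    (by
      rintro w ⟨φ, hφ, rfl⟩ hw1 hw2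
      rw [norm_tl_snd]
      apply hlow φ hφ
      · rw [← norm_tl_fst hφ, hw1]; norm_num
      · rw [← norm_PP O hφ]
        exact pow_le_pow_left₀ (norm_nonneg _) hw2 4)
    (by
      rintro w ⟨φ, hφ, rfl⟩ hw1 hw2 hw3
      rw [norm_tl_snd]
      apply hbar φ hφ
      · rw [← norm_tl_fst hφ, hw1]; norm_num
      · rw [← norm_PP O hφ]
        exact pow_le_pow_left₀ (by positivity) hw2 4
      · rw [← norm_PP O hφ]
        exact pow_le_pow_left₀ (norm_nonneg _) hw3 4)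
    v (fun n => ⟨_, hψ n, rfl⟩)
    (fun n => eq_one_of_pow4 (norm_nonneg _) (by rw [norm_tl_fst, hψ1 n]))
    (fun n => root4 hd.le (by rw [norm_PP]; exact hψ2 n))
    hvE
  refine ⟨u, G, ⟨⟨?_, Lp.memLp G, fun n => ψ (k n), fun n => hψ (k n), ?_, ?_⟩, ?_, ?_⟩, Or.inl ?_⟩
  · rw [ofReal4]; exact Lp.memLp u
  · rw [ofReal4]
    have h := (Lp.tendsto_Lp_iff_tendsto_eLpNorm' (fun n => (v (k n)).1) u).mp hu
    refine h.congr (fun n => ?_)
    apply eLpNorm_congr_ae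
    filter_upwards [(memLp_test (hψ (k n)) 4).coeFn_toLp] with z hz
    show (tl (hψ (k n))).1 z - u z = _
    rw [show (tl (hψ (k n))).1 z = ψ (k n) z from hz]
  · have h := (Lp.tendsto_Lp_iff_tendsto_eLpNorm' (fun n => (v (k n)).2) G).mp hG
    refine h.congr (fun n => ?_)
    apply eLpNorm_congr_ae
    filter_upwards [(memLp_grad (hψ (k n)) 2).coeFn_toLp] with z hz
    show (tl (hψ (k n))).2 z - G z = _
    rw [show (tl (hψ (k n))).2 z = gradient (ψ (k n)) z from hz]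
  · rw [ofReal4]
    have h : ‖u‖ = (eLpNorm u 4 volume).toReal := Lp.norm_def u
    rw [hu1] at h
    have hne : eLpNorm u 4 (volume : Measure E2) ≠ ⊤ := (Lp.memLp u).2.ne
    rw [← ENNReal.ofReal_toReal hne, ← h]
    norm_num
  · intro η hη
    have hw := hvar (tl hη) ⟨η, hη, rfl⟩
    have hI1 : ∫ z, u z ^ 4 = 1 := by
      rw [← norm_pow4, hu1]; norm_num
    have hfo := first_order (b := 2 * inner ℝ G (tl hη).2) (c := ‖(tl hη).2‖ ^ 2)
      (a1 := 4 * ∫ z, u z ^ 3 * η z) (a2 := 6 * ∫ z, u z ^ 2 * η z ^ 2)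
      (a3 := 4 * ∫ z, u z * η z ^ 3) (a4 := ∫ z, η z ^ 4) hm (by
        filter_upwards [hw] with t ht
        have e1 := pow4_expand u hη t
        have e2 := pow2_expand G (tl hη).2 t
        rw [hI1] at e1
        rw [hGm] at e2
        rw [← e1, ← e2]
        have h0 : 0 ≤ m * ‖u + t • (tl hη).1‖ ^ 2 := by positivity
        have h2 := pow_le_pow_left₀ h0 ht 2
        calc m ^ 2 * ‖u + t • (tl hη).1‖ ^ 4 = (m * ‖u + t • (tl hη).1‖ ^ 2) ^ 2 := by ring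
          _ ≤ _ := h2)
    have e3 : inner ℝ G (tl hη).2 = ∫ z, inner ℝ (G z) (gradient η z) := by
      rw [L2.inner_def]
      apply integral_congr_ae
      filter_upwards [(memLp_grad hη 2).coeFn_toLp] with z hz
      rw [show (tl hη).2 z = gradient η z from hz]
    have e4 : ∫ z, |u z| ^ ((4 : ℝ) - 2) * u z * η z = ∫ z, u z ^ 3 * η z := by
      congr 1
      funext z
      rw [show (4 : ℝ) - 2 = ((2 : ℕ) : ℝ) by norm_num, Real.rpow_natCast, sq_abs]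
      ring
    rw [← e3, e4]
    linarith
  · have h1 : 0 ≤ u := by
      apply ge_of_tendsto' hu
      intro n
      rw [← Lp.coeFn_nonneg]
      filter_upwards [(memLp_test (hψ (k n)) 4).coeFn_toLp] with z hz
      show 0 ≤ (tl (hψ (k n))).1 z
      rw [show (tl (hψ (k n))).1 z = ψ (k n) z from hz]
      exact hψ0 _ z
    rw [← Lp.coeFn_nonneg] at h1
    exact h1

end Pool.Agent.H57.Rooms
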