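import Pool.Agent.H57.Rooms.Barrier
import Pool.Agent.H57.Rooms.Abstract

open MeasureTheory Set Filter Topology
open scoped ContDiff
open Pool.Agent.MP_21f5b8_an

namespace Pool.Agent.H57.Rooms

noncomputable abbrev X4 := Lp ℝ 4 (volume : Measure E2)
noncomputable abbrev Y2 := Lp E2 2 (volume : Measure E2)

instance fact4 : Fact ((1 : ENNReal) ≤ 4) := ⟨by norm_num⟩

lemma norm_pow4 {α : Type*} [MeasurableSpace α] {μ : Measure α} (f : Lp ℝ 4 μ) :
    ‖f‖ ^ 4 = ∫ z, f z ^ 4 ∂μ := by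
  have h1 := (Lp.memLp f).eLpNorm_eq_integral_rpow_norm (by norm_num) (by norm_num)
  have h2 : ∀ a, ‖f a‖ ^ (4 : ENNReal).toReal = f a ^ 4 := by
    intro a
    rw [show (4 : ENNReal).toReal = ((4 : ℕ) : ℝ) by norm_num, Real.rpow_natCast,
      Real.norm_eq_abs, ← abs_pow, abs_of_nonneg (by positivity)]
  simp_rw [h2] at h1
  rw [Lp.norm_def, h1]
  have h0 : 0 ≤ ∫ z, f z ^ 4 ∂μ := integral_nonneg (fun z => by positivity)
  rw [ENNReal.toReal_ofReal (by positivity), ← Real.rpow_natCast, ← Real.rpow_mul h0]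
  norm_num

lemma norm_toLp_pow4 {α : Type*} [MeasurableSpace α] {μ : Measure α} {φ : α → ℝ}
    (h : MemLp φ 4 μ) : ‖h.toLp φ‖ ^ 4 = ∫ z, φ z ^ 4 ∂μ := by
  rw [norm_pow4]
  apply integral_congr_ae
  filter_upwards [h.coeFn_toLp] with z hz
  rw [hz]

lemma norm_toLp_pow2 {φ : E2 → E2} (h : MemLp φ 2 (volume : Measure E2)) :
    ‖h.toLp φ‖ ^ 2 = ∫ z, ‖φ z‖ ^ 2 := by
  rw [← real_inner_self_eq_norm_sq, L2.inner_def]
  apply integral_congr_ae
  filter_upwards [h.coeFn_toLp] with z hz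
  rw [hz, real_inner_self_eq_norm_sq]

variable {Ω : Set E2} {φ ψ : E2 → ℝ}

/-- the pair `(φ, ∇φ)` in `L⁴ × L²` -/
noncomputable def tl (h : IsTest Ω φ) : X4 × Y2 :=
  ((memLp_test h 4).toLp φ, (memLp_grad h 2).toLp (gradient φ))

lemma tl_smul (c : ℝ) (h : IsTest Ω φ) : tl (test_smul c h) = c • tl h := by
  unfold tl
  refine Prod.ext ?_ ?_
  · rfl
  · show (memLp_grad (test_smul c h) 2).toLp _ = c • (memLp_grad h 2).toLp _
    rw [← MemLp.toLp_const_smul]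
    congr 1
    funext z
    exact (grad_smul c (test_diff h z))

lemma tl_add (h : IsTest Ω φ) (h' : IsTest Ω ψ) : tl (test_add h h') = tl h + tl h' := by
  unfold tl
  refine Prod.ext ?_ ?_
  · rfl
  · show (memLp_grad (test_add h h') 2).toLp _ =
      (memLp_grad h 2).toLp _ + (memLp_grad h' 2).toLp _
    rw [← MemLp.toLp_add]
    congr 1
    funext z
    exact (grad_add (test_diff h z) (test_diff h' z))

/-- the space of test pairs -/
noncomputable def VV (Ω : Set E2) : Submodule ℝ (X4 × Y2) where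
  carrier := {v | ∃ φ, ∃ h : IsTest Ω φ, v = tl h}
  zero_mem' := ⟨_, test_smul 0 (test_zero (Ω := Ω)), by rw [tl_smul 0 (test_zero (Ω := Ω)), zero_smul]⟩
  add_mem' := by
    rintro _ _ ⟨φ, h, rfl⟩ ⟨ψ, h', rfl⟩
    exact ⟨_, test_add h h', (tl_add h h').symm⟩
  smul_mem' := by
    rintro c _ ⟨φ, h, rfl⟩
    exact ⟨_, test_smul c h, (tl_smul c h).symm⟩

lemma norm_tl_fst (h : IsTest Ω φ) : ‖(tl h).1‖ ^ 4 = ∫ z, φ z ^ 4 :=
  norm_toLp_pow4 (memLp_test h 4)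

lemma norm_tl_snd (h : IsTest Ω φ) : ‖(tl h).2‖ ^ 2 = En φ :=
  norm_toLp_pow2 (memLp_grad h 2)

/-- restriction map -/
noncomputable abbrev PP (O : Set E2) :
    X4 →L[ℝ] Lp ℝ 4 ((volume : Measure E2).restrict O) :=
  LpToLpRestrictCLM E2 ℝ ℝ (volume : Measure E2) 4 O

lemma norm_PP (O : Set E2) (h : IsTest Ω φ) :
    ‖PP O (tl h).1‖ ^ 4 = ∫ z in O, φ z ^ 4 := by
  rw [norm_pow4]
  apply integral_congr_ae
  have h1 := LpToLpRestrictCLM_coeFn (F := ℝ) ℝ O (tl h).1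
  have h2 : (tl h).1 =ᵐ[(volume : Measure E2).restrict O] φ :=
    ae_restrict_of_ae (memLp_test h 4).coeFn_toLp
  filter_upwards [h1, h2] with z hz1 hz2
  rw [hz1, hz2]

/-- smoothed absolute value -/
noncomputable def sab (δ t : ℝ) : ℝ := Real.sqrt (t ^ 2 + δ ^ 2) - δ

lemma sab_contDiff {δ : ℝ} (hδ : 0 < δ) : ContDiff ℝ ∞ (sab δ) := by
  unfold sab
  apply ContDiff.sub _ contDiff_const
  apply ContDiff.sqrt
  · fun_prop
  · intro t; positivity

lemma sab_zero {δ : ℝ} (hδ : 0 < δ) : sab δ 0 = 0 := by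
  unfold sab
  rw [show (0 : ℝ) ^ 2 + δ ^ 2 = δ ^ 2 by ring, Real.sqrt_sq hδ.le, sub_self]

lemma sab_nonneg {δ : ℝ} (hδ : 0 < δ) (t : ℝ) : 0 ≤ sab δ t := by
  unfold sab
  have : δ ≤ Real.sqrt (t ^ 2 + δ ^ 2) := Real.le_sqrt_of_sq_le (by nlinarith [sq_nonneg t])
  linarith

lemma sab_le {δ : ℝ} (hδ : 0 < δ) (t : ℝ) : sab δ t ≤ |t| := by
  unfold sab
  have : Real.sqrt (t ^ 2 + δ ^ 2) ≤ |t| + δ := by
    apply Real.sqrt_le_iff.mpr
    refine ⟨by positivity, ?_⟩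
    have := sq_abs t
    have := abs_nonneg t
    nlinarith
  linarith

lemma le_sab {δ : ℝ} (hδ : 0 < δ) (t : ℝ) : |t| - δ ≤ sab δ t := by
  unfold sab
  have : |t| ≤ Real.sqrt (t ^ 2 + δ ^ 2) := by
    apply Real.le_sqrt_of_sq_le
    rw [sq_abs]
    nlinarith [sq_nonneg δ]
  linarith

lemma deriv_sab {δ : ℝ} (hδ : 0 < δ) (t : ℝ) : |deriv (sab δ) t| ≤ 1 := by
  have hpos : 0 < t ^ 2 + δ ^ 2 := by positivity
  have h1 : HasDerivAt (fun t : ℝ => t ^ 2 + δ ^ 2) (2 * t) t := by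
    simpa using ((hasDerivAt_pow 2 t).add_const (δ ^ 2))
  have h2 : HasDerivAt (sab δ) (2 * t / (2 * Real.sqrt (t ^ 2 + δ ^ 2))) t := by
    unfold sab
    exact (h1.sqrt hpos.ne').sub_const δ
  rw [h2.deriv]
  have hs : 0 < Real.sqrt (t ^ 2 + δ ^ 2) := Real.sqrt_pos.mpr hpos
  rw [abs_div, abs_of_pos (by positivity : 0 < 2 * Real.sqrt (t ^ 2 + δ ^ 2)), abs_mul,
    div_le_one (by positivity)]
  have : |t| ≤ Real.sqrt (t ^ 2 + δ ^ 2) := by
    apply Real.le_sqrt_of_sq_le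
    rw [sq_abs]
    nlinarith [sq_nonneg δ]
  have h2 : |(2 : ℝ)| = 2 := abs_of_pos (by norm_num)
  rw [h2]
  linarith

lemma sab_pow4 {δ : ℝ} (hδ : 0 < δ) (t : ℝ) : t ^ 4 - 4 * δ * |t| ^ 3 ≤ sab δ t ^ 4 := by
  have h1 := le_sab hδ t
  have h2 := sab_nonneg hδ t
  have h3 : t ^ 4 = |t| ^ 4 := by
    rw [← abs_pow, abs_of_nonneg (by positivity)]
  rw [h3]
  have h4 := abs_nonneg t
  by_cases h : |t| ≤ δ
  · have : |t| ^ 4 ≤ δ * |t| ^ 3 := by
      have : |t| ^ 4 = |t| * |t| ^ 3 := by ring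
      rw [this]
      exact mul_le_mul_of_nonneg_right h (by positivity)
    have h5 : 0 ≤ δ * |t| ^ 3 := by positivity
    have h6 : 0 ≤ sab δ t ^ 4 := by positivity
    linarith
  · push Not at h
    have h5 : (|t| - δ) ^ 4 ≤ sab δ t ^ 4 := pow_le_pow_left₀ (by linarith) h1 4
    refine le_trans ?_ h5
    set a := |t|
    have : (a - δ) ^ 4 - (a ^ 4 - 4 * δ * a ^ 3) = δ ^ 2 * (6 * a ^ 2 - 4 * a * δ + δ ^ 2) := by
      ring
    have h7 : 0 ≤ 6 * a ^ 2 - 4 * a * δ + δ ^ 2 := by nlinarith [sq_nonneg (2 * a - δ)]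
    nlinarith [mul_nonneg (sq_nonneg δ) h7]

lemma En_sab {δ : ℝ} (hδ : 0 < δ) (h : IsTest Ω φ) : En (fun z => sab δ (φ z)) ≤ En φ := by
  apply integral_mono (integrable_gradsq (test_comp (sab_contDiff hδ) (sab_zero hδ) h))
    (integrable_gradsq h)
  intro z
  show ‖gradient (fun z => sab δ (φ z)) z‖ ^ 2 ≤ ‖gradient φ z‖ ^ 2
  rw [grad_comp (sab_contDiff hδ) (test_diff h z), norm_smul, mul_pow, Real.norm_eq_abs]
  have h1 := deriv_sab hδ (φ z)
  have h2 : |deriv (sab δ) (φ z)| ^ 2 ≤ 1 := by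
    have := abs_nonneg (deriv (sab δ) (φ z))
    nlinarith
  nlinarith [sq_nonneg ‖gradient φ z‖]

/-- Replacing a competitor by a nonnegative one. -/
lemma nonneg_approx {O : Set E2} (hO : MeasurableSet O) (h : IsTest Ω φ) (h1 : ∫ z, φ z ^ 4 = 1)
    {d : ℝ} (hd : 0 < d) (hθ : ∫ z in O, φ z ^ 4 ≤ (d / 2) ^ 4) {c : ℝ} (hc : En φ < c) :
    ∃ ψ, IsTest Ω ψ ∧ (∀ z, 0 ≤ ψ z) ∧ ∫ z, ψ z ^ 4 = 1 ∧ ∫ z in O, ψ z ^ 4 ≤ d ^ 4 ∧
      En ψ < c := by
  have hE0 := En_nonneg φ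
  have i4 := integrable_pow h 4 (by norm_num)
  have i3 : Integrable (fun z => |φ z| ^ 3) := by
    have hcs : HasCompactSupport (fun z => |φ z|) :=
      h.2.1.comp_left (g := fun y : ℝ => |y|) (by simp)
    exact (cont_pow h.1.continuous.abs 3).integrable_of_hasCompactSupport
      (hcs_pow hcs 3 (by norm_num))
  set B := ∫ z, |φ z| ^ 3 with hB
  have hB0 : 0 ≤ B := integral_nonneg (fun z => by positivity)
  -- choose δ
  set ρ : ℝ := max (En φ / c) (1 / 2) with hρ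
  have hc0 : 0 < c := lt_of_le_of_lt hE0 hc
  have hρ1 : ρ < 1 := by
    apply max_lt _ (by norm_num)
    rw [div_lt_one hc0]
    exact hc
  have hρ0 : 0 < ρ := lt_of_lt_of_le (by norm_num) (le_max_right _ _)
  set δ : ℝ := (1 - ρ) / (8 * (B + 1)) with hδd
  have hδ : 0 < δ := by
    apply div_pos (by linarith) (by positivity)
  have hδB : 4 * δ * B < 1 - ρ := by
    have e : 8 * (B + 1) * δ = 1 - ρ := by rw [hδd]; field_simp
    nlinarith
  set g : E2 → ℝ := fun z => sab δ (φ z) with hg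
  have tg : IsTest Ω g := test_comp (sab_contDiff hδ) (sab_zero hδ) h
  have ig4 := integrable_pow tg 4 (by norm_num)
  set N := ∫ z, g z ^ 4 with hN
  have hgle : ∀ z, g z ^ 4 ≤ φ z ^ 4 := by
    intro z
    have h3 : φ z ^ 4 = |φ z| ^ 4 := by
      rw [← abs_pow, abs_of_nonneg (by positivity)]
    rw [h3]
    exact pow_le_pow_left₀ (sab_nonneg hδ _) (sab_le hδ _) 4
  have hN1 : N ≤ 1 := by
    rw [← h1]
    exact integral_mono ig4 i4 hgle
  have hNρ : ρ < N := by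
    have : (∫ z, φ z ^ 4) - 4 * δ * B ≤ N := by
      rw [hB, ← integral_const_mul, ← integral_sub i4 (i3.const_mul _)]
      apply integral_mono (i4.sub (i3.const_mul _)) ig4
      intro z
      exact sab_pow4 hδ (φ z)
    rw [h1] at this
    linarith
  have hN0 : 0 < N := hρ0.trans hNρ
  set a : ℝ := (N⁻¹) ^ ((1 : ℝ) / 4) with ha
  have hNi : 1 ≤ N⁻¹ := (one_le_inv₀ hN0).mpr hN1
  have ha4 : a ^ 4 = N⁻¹ := by
    rw [ha, ← Real.rpow_natCast, ← Real.rpow_mul (by positivity)]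
    norm_num
  have ha1 : 1 ≤ a := Real.one_le_rpow hNi (by norm_num)
  have ha2 : a ^ 2 ≤ N⁻¹ := by
    rw [← ha4]
    nlinarith [sq_nonneg (a ^ 2)]
  refine ⟨fun z => a * g z, test_smul a tg, ?_, ?_, ?_, ?_⟩
  · intro z
    exact mul_nonneg (by linarith) (sab_nonneg hδ _)
  · have : ∀ z, (a * g z) ^ 4 = N⁻¹ * g z ^ 4 := by
      intro z; rw [mul_pow, ha4]
    simp_rw [this]
    rw [integral_const_mul, ← hN, inv_mul_cancel₀ hN0.ne']
  · have : ∀ z, (a * g z) ^ 4 = N⁻¹ * g z ^ 4 := by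
      intro z; rw [mul_pow, ha4]
    simp_rw [this]
    rw [integral_const_mul]
    have h5 : ∫ z in O, g z ^ 4 ≤ (d / 2) ^ 4 := by
      refine le_trans ?_ hθ
      exact setIntegral_mono_on ig4.integrableOn i4.integrableOn hO (fun z _ => hgle z)
    have h6 : N⁻¹ ≤ 2 := by
      rw [inv_le_comm₀ hN0 (by norm_num)]
      have := le_max_right (En φ / c) (1 / 2)
      have h7 : (1 : ℝ) / 2 ≤ ρ := this
      rw [show (2 : ℝ)⁻¹ = 1 / 2 by norm_num]
      linarith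
    have h8 : 0 ≤ ∫ z in O, g z ^ 4 := integral_nonneg (fun z => by positivity)
    calc N⁻¹ * ∫ z in O, g z ^ 4 ≤ 2 * (d / 2) ^ 4 := by
          apply mul_le_mul h6 h5 h8 (by norm_num)
      _ ≤ d ^ 4 := by
          have : 0 < d ^ 4 := by positivity
          have e : 2 * (d / 2) ^ 4 = d ^ 4 / 8 := by ring
          linarith
  · rw [En_smul a tg]
    have h5 : En g ≤ En φ := En_sab hδ h
    have h6 : 0 ≤ En g := En_nonneg _
    have h7 : a ^ 2 * En g ≤ N⁻¹ * En φ := mul_le_mul ha2 h5 h6 (by positivity)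
    refine lt_of_le_of_lt h7 ?_
    rw [inv_mul_lt_iff₀ hN0]
    have h8 : En φ / c ≤ ρ := le_max_left _ _
    have h9 : En φ / c < N := lt_of_le_of_lt h8 hNρ
    rw [div_lt_iff₀ hc0] at h9
    linarith

end Pool.Agent.H57.Rooms
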