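import Mathlib


open MeasureTheory Set Filter Topology
open scoped ContDiff

namespace Pool.Agent.H57.Rooms

/-- one-dimensional sup bound -/
lemma sq_le_integral {f : ℝ → ℝ} (hf : ContDiff ℝ 1 f) (hc : HasCompactSupport f) (t : ℝ) :
    f t ^ 2 ≤ 2 * ∫ s, |f s| * |deriv f s| := by
  have h1 : ContDiff ℝ 1 (fun s => f s ^ 2) := hf.pow 2
  have h2 : HasCompactSupport (fun s => f s ^ 2) :=
    hc.comp_left (g := fun y : ℝ => y ^ 2) (by norm_num)
  have h3 := h2.integral_Iic_deriv_eq h1 t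
  have hdc : Continuous (deriv f) := hf.continuous_deriv (by norm_num)
  have h4 : ∀ s, deriv (fun s => f s ^ 2) s = 2 * (f s * deriv f s) := by
    intro s
    have hd := (hf.differentiable (by norm_num)).differentiableAt (x := s)
    have := hd.hasDerivAt.pow 2
    have h := this.deriv
    rw [show (fun s => f s ^ 2) = f ^ 2 from rfl, h]
    simp
    ring
  have hI : Integrable (fun s => |f s| * |deriv f s|) := by
    apply Continuous.integrable_of_hasCompactSupport
    · exact (hf.continuous.abs).mul hdc.abs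
    · exact HasCompactSupport.mul_right (hc.comp_left (g := fun y : ℝ => |y|) (by simp))
  calc f t ^ 2 = ∫ s in Iic t, deriv (fun s => f s ^ 2) s := h3.symm
    _ ≤ ∫ s in Iic t, 2 * (|f s| * |deriv f s|) := by
        apply setIntegral_mono_on_ae
        · apply Integrable.integrableOn
          apply Continuous.integrable_of_hasCompactSupport
          · exact h1.continuous_deriv (by norm_num)
          · exact h2.deriv
        · exact (hI.const_mul 2).integrableOn
        · exact measurableSet_Iic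
        · refine ae_of_all _ (fun s _ => ?_)
          rw [h4, ← abs_mul]
          have := le_abs_self (f s * deriv f s)
          linarith
    _ ≤ ∫ s, 2 * (|f s| * |deriv f s|) := by
        apply setIntegral_le_integral (hI.const_mul 2)
        exact ae_of_all _ (fun s => by positivity)
    _ = 2 * ∫ s, |f s| * |deriv f s| := by rw [integral_const_mul]

lemma hcs_pow {α : Type*} [TopologicalSpace α] {f : α → ℝ} (hc : HasCompactSupport f)
    (n : ℕ) (hn : n ≠ 0) : HasCompactSupport (fun p => f p ^ n) :=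
  hc.comp_left (g := fun y : ℝ => y ^ n) (by simp [hn])

lemma cont_pow {α : Type*} [TopologicalSpace α] {f : α → ℝ} (hc : Continuous f)
    (n : ℕ) : Continuous (fun p => f p ^ n) := hc.pow n

/-- partial derivatives -/
noncomputable def fx (f : ℝ × ℝ → ℝ) (p : ℝ × ℝ) : ℝ := fderiv ℝ f p (1, 0)
noncomputable def fy (f : ℝ × ℝ → ℝ) (p : ℝ × ℝ) : ℝ := fderiv ℝ f p (0, 1)

lemma continuous_fx {f : ℝ × ℝ → ℝ} (hf : ContDiff ℝ 1 f) : Continuous (fx f) :=
  (hf.continuous_fderiv (by norm_num)).clm_apply continuous_const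

lemma continuous_fy {f : ℝ × ℝ → ℝ} (hf : ContDiff ℝ 1 f) : Continuous (fy f) :=
  (hf.continuous_fderiv (by norm_num)).clm_apply continuous_const

lemma hcs_fx {f : ℝ × ℝ → ℝ} (hc : HasCompactSupport f) : HasCompactSupport (fx f) :=
  hc.fderiv_apply (𝕜 := ℝ) (1, 0)

lemma hcs_fy {f : ℝ × ℝ → ℝ} (hc : HasCompactSupport f) : HasCompactSupport (fy f) :=
  hc.fderiv_apply (𝕜 := ℝ) (0, 1)

lemma hcs_section_y {f : ℝ × ℝ → ℝ} (hc : HasCompactSupport f) (x : ℝ) :
    HasCompactSupport (fun y => f (x, y)) := by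
  apply HasCompactSupport.intro (K := Prod.snd '' tsupport f)
  · exact hc.isCompact.image continuous_snd
  · intro y hy
    by_contra h
    exact hy ⟨(x, y), subset_tsupport _ h, rfl⟩

lemma hcs_section_x {f : ℝ × ℝ → ℝ} (hc : HasCompactSupport f) (y : ℝ) :
    HasCompactSupport (fun x => f (x, y)) := by
  apply HasCompactSupport.intro (K := Prod.fst '' tsupport f)
  · exact hc.isCompact.image continuous_fst
  · intro x hx
    by_contra h
    exact hx ⟨(x, y), subset_tsupport _ h, rfl⟩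

lemma deriv_section_y {f : ℝ × ℝ → ℝ} (hf : ContDiff ℝ 1 f) (x y : ℝ) :
    HasDerivAt (fun y => f (x, y)) (fy f (x, y)) y := by
  have hd := ((hf.differentiable (by norm_num)).differentiableAt (x := (x, y))).hasFDerivAt
  have h2 : HasDerivAt (fun y : ℝ => (x, y)) ((0 : ℝ), (1 : ℝ)) y :=
    (hasDerivAt_const y x).prodMk (hasDerivAt_id y)
  exact hd.comp_hasDerivAt y h2

lemma deriv_section_x {f : ℝ × ℝ → ℝ} (hf : ContDiff ℝ 1 f) (x y : ℝ) :
    HasDerivAt (fun x => f (x, y)) (fx f (x, y)) x := by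
  have hd := ((hf.differentiable (by norm_num)).differentiableAt (x := (x, y))).hasFDerivAt
  have h2 : HasDerivAt (fun x : ℝ => (x, y)) ((1 : ℝ), (0 : ℝ)) x :=
    (hasDerivAt_id x).prodMk (hasDerivAt_const x y)
  exact hd.comp_hasDerivAt x h2

lemma sq_le_integral_y {f : ℝ × ℝ → ℝ} (hf : ContDiff ℝ 1 f) (hc : HasCompactSupport f)
    (x y : ℝ) : f (x, y) ^ 2 ≤ 2 * ∫ s, |f (x, s)| * |fy f (x, s)| := by
  have h := sq_le_integral (f := fun s => f (x, s))
    (hf.comp (contDiff_const.prodMk contDiff_id)) (hcs_section_y hc x) y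
  simpa only [fun s => (deriv_section_y hf x s).deriv] using h

lemma sq_le_integral_x {f : ℝ × ℝ → ℝ} (hf : ContDiff ℝ 1 f) (hc : HasCompactSupport f)
    (x y : ℝ) : f (x, y) ^ 2 ≤ 2 * ∫ s, |f (s, y)| * |fx f (s, y)| := by
  have h := sq_le_integral (f := fun s => f (s, y))
    (hf.comp (contDiff_id.prodMk contDiff_const)) (hcs_section_x hc y) x
  simpa only [fun s => (deriv_section_x hf s y).deriv] using h

/-- The measure on the strip `I × ℝ`. -/
noncomputable abbrev strip (I : Set ℝ) : Measure (ℝ × ℝ) :=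
  (volume.restrict I).prod (volume : Measure ℝ)

lemma strip_le (I : Set ℝ) : strip I ≤ (volume : Measure (ℝ × ℝ)) := by
  have : strip I = (volume : Measure (ℝ × ℝ)).restrict (I ×ˢ univ) := by
    rw [strip, Measure.volume_eq_prod, ← Measure.prod_restrict, Measure.restrict_univ]
  rw [this]
  exact Measure.restrict_le_self

lemma integrable_strip {g : ℝ × ℝ → ℝ} (hg : Continuous g) (hc : HasCompactSupport g)
    (I : Set ℝ) : Integrable g (strip I) :=
  (hg.integrable_of_hasCompactSupport hc (μ := volume)).mono_measure (strip_le I)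

lemma integral_strip_le {g : ℝ × ℝ → ℝ} (hg : Continuous g) (hc : HasCompactSupport g)
    (h0 : ∀ p, 0 ≤ g p) (I : Set ℝ) : ∫ p, g p ∂(strip I) ≤ ∫ p, g p := by
  apply integral_mono_measure (strip_le I)
  · exact ae_of_all _ h0
  · exact hg.integrable_of_hasCompactSupport hc

/-- Ladyzhenskaya-type inequality on strips -/
lemma lady {f : ℝ × ℝ → ℝ} (hf : ContDiff ℝ 1 f) (hc : HasCompactSupport f) (I : Set ℝ) :
    ∫ p, f p ^ 4 ∂(strip I) ≤
      (2 * ∫ p, |f p| * |fy f p| ∂(strip I)) * (2 * ∫ p, |f p| * |fx f p|) := by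
  have hcf : Continuous f := hf.continuous
  have habs : HasCompactSupport (fun p => |f p|) :=
    hc.comp_left (g := fun y : ℝ => |y|) (by simp)
  have c1 : Continuous (fun p => |f p| * |fy f p|) := hcf.abs.mul (continuous_fy hf).abs
  have s1 : HasCompactSupport (fun p => |f p| * |fy f p|) := habs.mul_right
  have c2 : Continuous (fun p => |f p| * |fx f p|) := hcf.abs.mul (continuous_fx hf).abs
  have s2 : HasCompactSupport (fun p => |f p| * |fx f p|) := habs.mul_right
  have c4 : Continuous (fun p => f p ^ 4) := hcf.pow 4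
  have s4 : HasCompactSupport (fun p => f p ^ 4) :=
    hc.comp_left (g := fun y : ℝ => y ^ 4) (by norm_num)
  have i1 : Integrable (fun p => |f p| * |fy f p|) (strip I) := integrable_strip c1 s1 I
  have i2 : Integrable (fun p => |f p| * |fx f p|) (strip univ) := integrable_strip c2 s2 univ
  have hu : strip univ = (volume : Measure (ℝ × ℝ)) := by
    rw [strip, Measure.restrict_univ, ← Measure.volume_eq_prod]
  set A : ℝ → ℝ := fun x => 2 * ∫ s, |f (x, s)| * |fy f (x, s)| with hA
  set B : ℝ → ℝ := fun y => 2 * ∫ s, |f (s, y)| * |fx f (s, y)| with hB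
  have iA : Integrable A (volume.restrict I) := by
    exact (i1.integral_prod_left).const_mul 2
  have iB : Integrable B (volume : Measure ℝ) := by
    rw [hu, Measure.volume_eq_prod] at i2
    exact (i2.integral_prod_right).const_mul 2
  have key : ∫ p, f p ^ 4 ∂(strip I) ≤ ∫ p, A p.1 * B p.2 ∂(strip I) := by
    apply integral_mono_ae
    · exact integrable_strip c4 s4 I
    · exact iA.mul_prod iB
    · refine ae_of_all _ (fun p => ?_)
      have h1 := sq_le_integral_y hf hc p.1 p.2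
      have h2 := sq_le_integral_x hf hc p.1 p.2
      have h3 : f p ^ 4 = f (p.1, p.2) ^ 2 * f (p.1, p.2) ^ 2 := by
        rw [Prod.mk.eta]; ring
      show f p ^ 4 ≤ A p.1 * B p.2
      rw [h3]
      exact mul_le_mul h1 h2 (by positivity) (le_trans (by positivity) h1)
  refine key.trans (le_of_eq ?_)
  rw [integral_prod_mul]
  congr 1
  · rw [hA, integral_const_mul, integral_prod _ i1]
  · rw [hB, integral_const_mul, ← hu]
    rw [hu, Measure.volume_eq_prod] at i2
    rw [hu, Measure.volume_eq_prod, integral_prod_symm _ i2]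

/-- vertical Poincare, first form -/
lemma poincare_aux {f : ℝ × ℝ → ℝ} (hf : ContDiff ℝ 1 f) (hc : HasCompactSupport f)
    {I : Set ℝ} (hI : MeasurableSet I) {h : ℝ} (hh : 0 < h)
    (h0 : ∀ x ∈ I, ∀ y, y ∉ Ioo 0 h → f (x, y) = 0) :
    ∫ p, f p ^ 2 ∂(strip I) ≤ 2 * h * ∫ p, |f p| * |fy f p| ∂(strip I) := by
  have hcf : Continuous f := hf.continuous
  have habs : HasCompactSupport (fun p => |f p|) :=
    hc.comp_left (g := fun y : ℝ => |y|) (by simp)
  have c1 : Continuous (fun p => |f p| * |fy f p|) := hcf.abs.mul (continuous_fy hf).abs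
  have s1 : HasCompactSupport (fun p => |f p| * |fy f p|) := habs.mul_right
  have i1 : Integrable (fun p => |f p| * |fy f p|) (strip I) := integrable_strip c1 s1 I
  have i2 : Integrable (fun p => f p ^ 2) (strip I) :=
    integrable_strip (cont_pow hcf 2) (hcs_pow hc 2 (by norm_num)) I
  have iA : Integrable (fun x => 2 * ∫ s, |f (x, s)| * |fy f (x, s)|) (volume.restrict I) :=
    (i1.integral_prod_left).const_mul 2
  calc ∫ p, f p ^ 2 ∂(strip I) = ∫ x in I, ∫ y, f (x, y) ^ 2 := integral_prod _ i2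
    _ ≤ ∫ x in I, h * (2 * ∫ s, |f (x, s)| * |fy f (x, s)|) := by
        apply setIntegral_mono_on i2.integral_prod_left (iA.const_mul h) hI
        intro x hx
        have e1 : ∫ y, f (x, y) ^ 2 = ∫ y in Ioo 0 h, f (x, y) ^ 2 := by
          symm
          apply setIntegral_eq_integral_of_forall_compl_eq_zero
          intro y hy
          rw [h0 x hx y hy]; norm_num
        rw [e1]
        calc ∫ y in Ioo 0 h, f (x, y) ^ 2
            ≤ ∫ y in Ioo 0 h, (2 * ∫ s, |f (x, s)| * |fy f (x, s)|) := by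
              apply setIntegral_mono_on _ _ measurableSet_Ioo
              · intro y _
                exact sq_le_integral_y hf hc x y
              · apply Integrable.integrableOn
                exact (cont_pow (hcf.comp (continuous_const.prodMk continuous_id))
                  2).integrable_of_hasCompactSupport
                  (hcs_pow (hcs_section_y hc x) 2 (by norm_num))
              · exact integrableOn_const (by simp) (by finiteness)
          _ = h * (2 * ∫ s, |f (x, s)| * |fy f (x, s)|) := by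
              rw [setIntegral_const]
              simp [hh.le]
    _ = 2 * h * ∫ p, |f p| * |fy f p| ∂(strip I) := by
        rw [integral_const_mul, integral_const_mul, integral_prod _ i1]
        ring

/-- absorbing inequality -/
lemma mixed_le {f g : ℝ × ℝ → ℝ} (hf : Continuous f) (hc : HasCompactSupport f)
    (hg : Continuous g) (hcg : HasCompactSupport g) (I : Set ℝ) {ε : ℝ} (hε : 0 < ε) :
    2 * ∫ p, |f p| * |g p| ∂(strip I) ≤
      ε⁻¹ * (∫ p, f p ^ 2 ∂(strip I)) + ε * ∫ p, g p ^ 2 ∂(strip I) := by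
  have habs : HasCompactSupport (fun p => |f p|) :=
    hc.comp_left (g := fun y : ℝ => |y|) (by simp)
  have c1 : Continuous (fun p => |f p| * |g p|) := hf.abs.mul hg.abs
  have s1 : HasCompactSupport (fun p => |f p| * |g p|) := habs.mul_right
  have i1 : Integrable (fun p => |f p| * |g p|) (strip I) := integrable_strip c1 s1 I
  have i2 : Integrable (fun p => f p ^ 2) (strip I) :=
    integrable_strip (cont_pow hf 2) (hcs_pow hc 2 (by norm_num)) I
  have i3 : Integrable (fun p => g p ^ 2) (strip I) :=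
    integrable_strip (cont_pow hg 2) (hcs_pow hcg 2 (by norm_num)) I
  rw [← integral_const_mul, ← integral_const_mul, ← integral_const_mul,
    ← integral_add (i2.const_mul _) (i3.const_mul _)]
  apply integral_mono (i1.const_mul 2) ((i2.const_mul _).add (i3.const_mul _))
  intro p
  show 2 * (|f p| * |g p|) ≤ ε⁻¹ * f p ^ 2 + ε * g p ^ 2
  have h1 : ε * ε⁻¹ = 1 := mul_inv_cancel₀ hε.ne'
  have h2 : 0 < ε⁻¹ := inv_pos.mpr hε
  have h3 : 0 ≤ ε⁻¹ * (|f p| - ε * |g p|) ^ 2 := by positivity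
  have e1 : |f p| ^ 2 = f p ^ 2 := sq_abs _
  have e2 : |g p| ^ 2 = g p ^ 2 := sq_abs _
  have h4 : ε⁻¹ * (|f p| - ε * |g p|) ^ 2 =
      ε⁻¹ * |f p| ^ 2 - 2 * (ε * ε⁻¹) * (|f p| * |g p|) + (ε * ε⁻¹) * ε * |g p| ^ 2 := by ring
  rw [h4, h1, e1, e2] at h3
  linarith

/-- vertical Poincare -/
lemma poincare {f : ℝ × ℝ → ℝ} (hf : ContDiff ℝ 1 f) (hc : HasCompactSupport f)
    {I : Set ℝ} (hI : MeasurableSet I) {h : ℝ} (hh : 0 < h)
    (h0 : ∀ x ∈ I, ∀ y, y ∉ Ioo 0 h → f (x, y) = 0) :
    ∫ p, f p ^ 2 ∂(strip I) ≤ 4 * h ^ 2 * ∫ p, fy f p ^ 2 ∂(strip I) := by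
  have h1 := poincare_aux hf hc hI hh h0
  have h2 := mixed_le hf.continuous hc (continuous_fy hf) (hcs_fy hc) I
    (ε := 2 * h) (by positivity)
  have h3 : 2 * h * ∫ p, |f p| * |fy f p| ∂(strip I) ≤
      h * ((2 * h)⁻¹ * (∫ p, f p ^ 2 ∂(strip I)) + (2 * h) * ∫ p, fy f p ^ 2 ∂(strip I)) := by
    have := mul_le_mul_of_nonneg_left h2 hh.le
    linarith
  have h4 : h * (2 * h)⁻¹ = 1 / 2 := by field_simp
  have h5 : h * ((2 * h)⁻¹ * (∫ p, f p ^ 2 ∂(strip I)) + (2 * h) * ∫ p, fy f p ^ 2 ∂(strip I))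
      = (h * (2 * h)⁻¹) * (∫ p, f p ^ 2 ∂(strip I)) + 2 * h ^ 2 * ∫ p, fy f p ^ 2 ∂(strip I) := by
    ring
  rw [h5, h4] at h3
  linarith

lemma mixed_y_le {f : ℝ × ℝ → ℝ} (hf : ContDiff ℝ 1 f) (hc : HasCompactSupport f)
    {I : Set ℝ} (hI : MeasurableSet I) {h : ℝ} (hh : 0 < h)
    (h0 : ∀ x ∈ I, ∀ y, y ∉ Ioo 0 h → f (x, y) = 0) :
    2 * ∫ p, |f p| * |fy f p| ∂(strip I) ≤ 4 * h * ∫ p, fy f p ^ 2 ∂(strip I) := by
  have h1 := poincare hf hc hI hh h0
  have h2 := mixed_le hf.continuous hc (continuous_fy hf) (hcs_fy hc) I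
    (ε := 2 * h) (by positivity)
  have h3 : (2 * h)⁻¹ * ∫ p, f p ^ 2 ∂(strip I) ≤
      (2 * h)⁻¹ * (4 * h ^ 2 * ∫ p, fy f p ^ 2 ∂(strip I)) :=
    mul_le_mul_of_nonneg_left h1 (by positivity)
  have h4 : (2 * h)⁻¹ * (4 * h ^ 2 * ∫ p, fy f p ^ 2 ∂(strip I))
      = 2 * h * ∫ p, fy f p ^ 2 ∂(strip I) := by field_simp; ring
  linarith

lemma strip_univ : strip univ = (volume : Measure (ℝ × ℝ)) := by
  rw [strip, Measure.restrict_univ, ← Measure.volume_eq_prod]

/-- Dirichlet energy on `ℝ × ℝ` -/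
noncomputable def en (f : ℝ × ℝ → ℝ) : ℝ := ∫ p, (fx f p ^ 2 + fy f p ^ 2)

lemma en_eq {f : ℝ × ℝ → ℝ} (hf : ContDiff ℝ 1 f) (hc : HasCompactSupport f) :
    en f = (∫ p, fx f p ^ 2) + ∫ p, fy f p ^ 2 := by
  apply integral_add
  · exact (cont_pow (continuous_fx hf) 2).integrable_of_hasCompactSupport
      (hcs_pow (hcs_fx hc) 2 (by norm_num))
  · exact (cont_pow (continuous_fy hf) 2).integrable_of_hasCompactSupport
      (hcs_pow (hcs_fy hc) 2 (by norm_num))

lemma fy_sq_strip_le {f : ℝ × ℝ → ℝ} (hf : ContDiff ℝ 1 f) (hc : HasCompactSupport f)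
    (I : Set ℝ) : ∫ p, fy f p ^ 2 ∂(strip I) ≤ ∫ p, fy f p ^ 2 :=
  integral_strip_le (cont_pow (continuous_fy hf) 2)
    (hcs_pow (hcs_fy hc) 2 (by norm_num)) (fun p => by positivity) I

/-- The main strip inequality: `∫_S f⁴ ≤ 8 h E²`. -/
lemma lady_strip {f : ℝ × ℝ → ℝ} (hf : ContDiff ℝ 1 f) (hc : HasCompactSupport f)
    {I : Set ℝ} (hI : MeasurableSet I) {h : ℝ} (hh : 0 < h)
    (h0 : ∀ x ∈ I, ∀ y, y ∉ Ioo 0 h → f (x, y) = 0)
    (h1 : ∀ x y, y ∉ Ioo (0 : ℝ) 1 → f (x, y) = 0) :
    ∫ p, f p ^ 4 ∂(strip I) ≤ 8 * h * en f ^ 2 := by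
  have a1 := lady hf hc I
  have a2 := mixed_y_le hf hc hI hh h0
  have a3 := mixed_le hf.continuous hc (continuous_fx hf) (hcs_fx hc) univ (ε := 2) (by norm_num)
  have a4 := poincare hf hc MeasurableSet.univ one_pos (fun x _ y hy => h1 x y hy)
  rw [strip_univ] at a3 a4
  have a5 := fy_sq_strip_le hf hc I
  have a6 := en_eq hf hc
  have p1 : 0 ≤ ∫ p, fx f p ^ 2 := integral_nonneg (fun p => by positivity)
  have p2 : 0 ≤ ∫ p, fy f p ^ 2 := integral_nonneg (fun p => by positivity)
  have p3 : 0 ≤ 2 * ∫ p, |f p| * |fx f p| := by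
    have : 0 ≤ ∫ p, |f p| * |fx f p| := integral_nonneg (fun p => by positivity)
    linarith
  have b1 : 2 * ∫ p, |f p| * |fx f p| ≤ 2 * en f := by
    rw [a6]; linarith
  have b2 : 2 * ∫ p, |f p| * |fy f p| ∂(strip I) ≤ 4 * h * en f := by
    refine a2.trans ?_
    apply mul_le_mul_of_nonneg_left _ (by positivity)
    rw [a6]; linarith
  refine a1.trans ?_
  have := mul_le_mul b2 b1 p3 (by have : 0 ≤ en f := by rw [a6]; positivity
                                  positivity)
  linarith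

end Pool.Agent.H57.Rooms
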