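import Pool.Agent.H57.Rooms.Domain

open MeasureTheory Set Filter Topology
open scoped ContDiff
open Pool.Agent.MP_21f5b8_an

namespace Pool.Agent.H57.Rooms

lemma xk_lt {a b : ℕ} : xk a < xk b ↔ a < b := xk_mono.lt_iff_lt

lemma dom_unit {w : ℕ → ℝ} (hw : ∀ n, w n ≤ 1 / ((n : ℝ) + 1)) :
    ∀ z ∈ dom w, z 0 ∈ Ioo (0 : ℝ) 1 ∧ z 1 ∈ Ioo (0 : ℝ) 1 := by
  intro z hz
  obtain ⟨s, ⟨n, rfl⟩, hz⟩ := hz
  rcases hz with ⟨hx, hy⟩ | ⟨hx, hy⟩
  · exact ⟨⟨lt_of_le_of_lt (xk_nonneg _) hx.1, hx.2.trans (xk_lt_one _)⟩,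
      ⟨hy.1, lt_of_lt_of_le hy.2 ((hw n).trans (height_le_one n))⟩⟩
  · exact ⟨⟨lt_of_le_of_lt (xk_nonneg _) hx.1, hx.2.trans (xk_lt_one _)⟩,
      ⟨hy.1, lt_of_lt_of_le hy.2 (height_le_one n)⟩⟩

lemma height_anti {m n : ℕ} (h : n ≤ m) : 1 / ((m : ℝ) + 1) ≤ 1 / ((n : ℝ) + 1) := by
  apply one_div_le_one_div_of_le (by positivity)
  have : (n : ℝ) ≤ m := by exact_mod_cast h
  linarith

lemma dom_room {w : ℕ → ℝ} (hw : ∀ n, w n ≤ 1 / ((n : ℝ) + 1)) (n : ℕ) :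
    ∀ z ∈ dom w, z 0 ∈ Ioo (xk (4 * n + 1)) (xk (4 * n + 5)) → z 1 < 1 / ((n : ℝ) + 1) := by
  intro z hz hzn
  obtain ⟨s, ⟨m, rfl⟩, hz⟩ := hz
  rcases hz with ⟨hx, hy⟩ | ⟨hx, hy⟩
  · have h1 : 4 * n + 1 < 4 * m + 3 := xk_lt.mp (hzn.1.trans hx.2)
    exact lt_of_lt_of_le hy.2 ((hw m).trans (height_anti (by omega)))
  · have h1 : 4 * n + 1 < 4 * m + 4 := xk_lt.mp (hzn.1.trans hx.2)
    have h2 : 4 * m + 2 < 4 * n + 5 := xk_lt.mp (hx.1.trans hzn.2)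
    have h3 : m = n := by omega
    subst h3
    exact hy.2

lemma dom_tube {w : ℕ → ℝ} (n : ℕ) :
    ∀ z ∈ dom w, z 0 ∈ Icc (xk (4 * n)) (xk (4 * n + 2)) ∪
      Icc (xk (4 * n + 4)) (xk (4 * n + 6)) → z 1 < w n ∨ z 1 < w (n + 1) := by
  intro z hz hzn
  obtain ⟨s, ⟨m, rfl⟩, hz⟩ := hz
  rcases hz with ⟨hx, hy⟩ | ⟨hx, hy⟩
  · rcases hzn with hzn | hzn
    · have h1 : 4 * n < 4 * m + 3 := xk_lt.mp (lt_of_le_of_lt hzn.1 hx.2)
      have h2 : 4 * m - 1 < 4 * n + 2 := xk_lt.mp (lt_of_lt_of_le hx.1 hzn.2)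
      have h3 : m = n := by omega
      subst h3
      exact Or.inl hy.2
    · have h1 : 4 * n + 4 < 4 * m + 3 := xk_lt.mp (lt_of_le_of_lt hzn.1 hx.2)
      have h2 : 4 * m - 1 < 4 * n + 6 := xk_lt.mp (lt_of_lt_of_le hx.1 hzn.2)
      have h3 : m = n + 1 := by omega
      subst h3
      exact Or.inr hy.2
  · exfalso
    rcases hzn with hzn | hzn
    · have h1 : 4 * n < 4 * m + 4 := xk_lt.mp (lt_of_le_of_lt hzn.1 hx.2)
      have h2 : 4 * m + 2 < 4 * n + 2 := xk_lt.mp (lt_of_lt_of_le hx.1 hzn.2)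
      omega
    · have h1 : 4 * n + 4 < 4 * m + 4 := xk_lt.mp (lt_of_le_of_lt hzn.1 hx.2)
      have h2 : 4 * m + 2 < 4 * n + 6 := xk_lt.mp (lt_of_lt_of_le hx.1 hzn.2)
      omega

/-- data attached to the `n`-th room, independent of the passages -/
lemma room_data (n : ℕ) : ∃ (φ0 : E2 → ℝ) (χ1 χ2 : ℝ → ℝ) (K μ e W : ℝ),
    IsTest (room n) φ0 ∧ ∫ z, φ0 z ^ 4 = 1 ∧ En φ0 ≤ μ ∧
    Cut (xk (4 * n)) (xk (4 * n + 1)) (xk (4 * n + 2)) (xk (4 * n + 4)) (xk (4 * n + 5))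
      (xk (4 * n + 6)) χ1 χ2 K ∧ 1 ≤ μ ∧ 0 < e ∧ 16 * e * μ ≤ 1 / 6 ∧ 0 < W ∧ W ≤ 1 ∧
    32 * W * μ ^ 2 ≤ e ^ 2 ∧ 2 * (1 + 8 * K ^ 2) * W * μ ≤ e / 10 := by
  have hlt : ∀ {a b : ℕ}, a < b → xk a < xk b := fun h => xk_mono h
  have hne : (room n).Nonempty := by
    refine ⟨toE ((xk (4 * n + 2) + xk (4 * n + 4)) / 2, (1 / ((n : ℝ) + 1)) / 2), ?_⟩
    have h1 : xk (4 * n + 2) < xk (4 * n + 4) := hlt (by omega)
    have h2 : 0 < 1 / ((n : ℝ) + 1) := by positivity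
    apply rect_mem
    · constructor <;> linarith
    · constructor <;> linarith
  obtain ⟨φ0, hφ0, h1⟩ := exists_bump (isOpen_rect _ _ _ _) hne
  obtain ⟨χ1, χ2, K, hcut⟩ := exists_cut (p0 := xk (4 * n)) (p1 := xk (4 * n + 1))
    (p2 := xk (4 * n + 2)) (p4 := xk (4 * n + 4)) (p5 := xk (4 * n + 5)) (p6 := xk (4 * n + 6))
    (hlt (by omega)) (hlt (by omega)) (hlt (by omega)) (hlt (by omega)) (hlt (by omega))
  set μ := max 1 (En φ0) with hμ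
  have hμ1 : 1 ≤ μ := le_max_left _ _
  set e := 1 / (96 * μ) with he
  have he0 : 0 < e := by positivity
  set W := min 1 (min (e ^ 2 / (32 * μ ^ 2)) (e / (20 * (1 + 8 * K ^ 2) * μ))) with hW
  have hW0 : 0 < W := by
    apply lt_min one_pos
    apply lt_min <;> positivity
  refine ⟨φ0, χ1, χ2, K, μ, e, W, hφ0, h1, le_max_right _ _, hcut, hμ1, he0, ?_, hW0,
    min_le_left _ _, ?_, ?_⟩
  · rw [he]; apply le_of_eq; field_simp; norm_num
  · have h2 : W ≤ e ^ 2 / (32 * μ ^ 2) := (min_le_right _ _).trans (min_le_left _ _)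
    rw [le_div_iff₀ (by positivity)] at h2
    linarith
  · have h2 : W ≤ e / (20 * (1 + 8 * K ^ 2) * μ) := (min_le_right _ _).trans (min_le_right _ _)
    rw [le_div_iff₀ (by positivity)] at h2
    linarith

/-- Main theorem. -/
theorem main : ∃ Ω : Set (EuclideanSpace ℝ (Fin 2)), IsOpen Ω ∧ IsConnected Ω ∧
    Bornology.IsBounded Ω ∧ QAdmissible 4 Ω ∧
    {lam : ℝ | HasConstantSignEigenfunction 4 Ω lam}.Infinite := by
  choose φ0 χ1 χ2 K μ e W hφ0 h1 hEμ hcut hμ1 he0 heμ hW0 hW1 hWe hWK using room_data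
  set w : ℕ → ℝ := fun n => min (1 / ((n : ℝ) + 1)) (min (W n) (W (n - 1))) with hw
  have hw0 : ∀ n, 0 < w n := by
    intro n
    apply lt_min (by positivity)
    exact lt_min (hW0 _) (hW0 _)
  have hwr : ∀ n, w n ≤ 1 / ((n : ℝ) + 1) := fun n => min_le_left _ _
  have hwW : ∀ n, w n ≤ W n := fun n => (min_le_right _ _).trans (min_le_left _ _)
  have hwW' : ∀ n, w (n + 1) ≤ W n := fun n => by
    have : w (n + 1) ≤ W (n + 1 - 1) := (min_le_right _ _).trans (min_le_right _ _)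
    simpa using this
  have hunit := dom_unit hwr
  have hev : ∀ n : ℕ, ∃ m : ℝ, HasConstantSignEigenfunction 4 (dom w) m ∧ 0 < m ∧
      ((n : ℝ) + 1) / 16 ≤ m ^ 2 := by
    intro n
    have hsub : room n ⊆ dom w := fun z hz => mem_iUnion.mpr ⟨n, Or.inr hz⟩
    obtain ⟨m, hm1, hm0, hm2⟩ := room_eigen (hcut n) (hW0 n) (hW1 n) hunit
      (by
        intro z hz hzn
        rcases dom_tube n z hz hzn with h | h
        · exact lt_of_lt_of_le h (hwW n)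
        · exact lt_of_lt_of_le h (hwW' n))
      (h := 1 / ((n : ℝ) + 1)) (by positivity) (dom_room hwr n) (hμ1 n) (he0 n) (heμ n)
      (hWe n) (hWK n) (IsTest.mono (hφ0 n) hsub) (h1 n)
      (by
        apply setIntegral_eq_zero_of_forall_eq_zero
        intro z hz
        have : z ∉ room n := by
          intro hzr
          apply hz
          exact ⟨(xk_mono (by omega)).trans hzr.1.1, hzr.1.2.trans (xk_mono (by omega))⟩
        rw [test_zero_off (hφ0 n) this]; norm_num)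
      (hEμ n)
    refine ⟨m, hm1, hm0, ?_⟩
    have : 1 / (16 * (1 / ((n : ℝ) + 1))) = ((n : ℝ) + 1) / 16 := by field_simp
    rwa [this] at hm2
  refine ⟨dom w, isOpen_dom w, isConnected_dom hw0, ?_, admissible hunit, ?_⟩
  · rw [Metric.isBounded_iff_subset_closedBall 0]
    refine ⟨2, fun z hz => ?_⟩
    rw [mem_closedBall_zero_iff]
    have h2 := norm_sq_E2 z
    obtain ⟨hx, hy⟩ := hunit z hz
    have : ‖z‖ ^ 2 ≤ 2 ^ 2 := by
      rw [h2]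
      nlinarith [hx.1, hx.2, hy.1, hy.2]
    exact le_of_sq_le_sq this (by norm_num)
  · apply infinite_of_not_bddAbove
    rintro ⟨M, hM⟩
    obtain ⟨n, hn⟩ := exists_nat_gt (16 * M ^ 2)
    obtain ⟨m, hm1, hm0, hm2⟩ := hev n
    have h3 : m ≤ M := hM hm1
    have h4 : m ^ 2 ≤ M ^ 2 := pow_le_pow_left₀ hm0.le h3 2
    have : (n : ℝ) + 1 ≤ 16 * M ^ 2 := by linarith
    linarith

end Pool.Agent.H57.Rooms
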