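import Pool.Agent.H57.Rooms.Ineq

open MeasureTheory Set Filter Topology
open scoped ContDiff

namespace Pool.Agent.H57.Rooms

lemma cs_finite {α : Type*} [MeasurableSpace α] {μ : Measure α} [IsFiniteMeasure μ] {g : α → ℝ}
    (h1 : Integrable g μ) (h2 : Integrable (fun x => g x ^ 2) μ) {s : ℝ} (hs : 0 < s)
    (hV : μ.real univ = s) : (∫ x, g x ∂μ) ^ 2 ≤ s * ∫ x, g x ^ 2 ∂μ := by
  set c := ∫ x, g x ∂μ with hc
  have h3 : 0 ≤ ∫ x, (g x - c / s) ^ 2 ∂μ := integral_nonneg (fun x => by positivity)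
  have h4 : ∫ x, (g x - c / s) ^ 2 ∂μ = (∫ x, g x ^ 2 ∂μ) - c ^ 2 / s := by
    have e : ∀ x, (g x - c / s) ^ 2 = g x ^ 2 - (2 * (c / s)) * g x + (c / s) ^ 2 := by
      intro x; ring
    have i3 : Integrable (fun x => g x ^ 2 - (2 * (c / s)) * g x) μ := h2.sub (h1.const_mul _)
    simp_rw [e]
    rw [integral_add i3 (integrable_const _),
      integral_sub h2 (h1.const_mul _), integral_const_mul, integral_const, hV, ← hc]
    simp only [smul_eq_mul]
    field_simp
    ring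
  rw [h4] at h3
  have h5 : c ^ 2 / s ≤ ∫ x, g x ^ 2 ∂μ := by linarith
  rw [div_le_iff₀ hs] at h5
  linarith

lemma abs_sub_le_integral {g g' : ℝ → ℝ} (hg : ∀ x, HasDerivAt g (g' x) x) (hc : Continuous g')
    {a s x y : ℝ} (hx : x ∈ Ioc a (a + s)) (hy : y ∈ Ioc a (a + s)) :
    |g x - g y| ≤ ∫ t in Ioc a (a + s), |g' t| := by
  have h1 : g x - g y = ∫ t in y..x, g' t := by
    rw [intervalIntegral.integral_eq_sub_of_hasDerivAt (fun t _ => hg t)
      (hc.intervalIntegrable _ _)]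
  rw [h1]
  calc |∫ t in y..x, g' t| ≤ ∫ t in uIoc y x, |g' t| := by
        have := intervalIntegral.norm_integral_le_integral_norm_uIoc (f := g') (a := y) (b := x)
          (μ := volume)
        simpa [Real.norm_eq_abs] using this
    _ ≤ ∫ t in Ioc a (a + s), |g' t| := by
        apply setIntegral_mono_set
        · exact (hc.abs.integrableOn_Icc (a := a) (b := a + s)).mono_set Ioc_subset_Icc_self
        · exact ae_of_all _ (fun t => abs_nonneg _)
        · apply LE.le.eventuallyLE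
          intro t ht
          rw [mem_uIoc] at ht
          rcases ht with ht | ht
          · exact ⟨lt_of_lt_of_le' ht.1 hy.1.le, ht.2.trans hx.2⟩
          · exact ⟨lt_of_lt_of_le' ht.1 hx.1.le, ht.2.trans hy.2⟩

/-- the measure on a square -/
noncomputable abbrev sqm (a b s : ℝ) : Measure (ℝ × ℝ) :=
  (volume.restrict (Ioc a (a + s))).prod (volume.restrict (Ioc b (b + s)))

lemma sqm_eq (a b s : ℝ) : sqm a b s =
    (volume : Measure (ℝ × ℝ)).restrict (Ioc a (a + s) ×ˢ Ioc b (b + s)) := by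
  rw [sqm, Measure.volume_eq_prod, ← Measure.prod_restrict]

lemma integrable_sqm {g : ℝ × ℝ → ℝ} (hg : Continuous g) (a b s : ℝ) :
    Integrable g (sqm a b s) := by
  rw [sqm_eq]
  have h1 : IsCompact (Icc a (a + s) ×ˢ Icc b (b + s)) := isCompact_Icc.prod isCompact_Icc
  exact (hg.continuousOn.integrableOn_compact h1).mono_set
    (prod_mono Ioc_subset_Icc_self Ioc_subset_Icc_self)

lemma sqm_real_univ (a b : ℝ) {s : ℝ} (hs : 0 < s) : (sqm a b s).real univ = s ^ 2 := by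
  rw [← univ_prod_univ, measureReal_prod_prod]
  simp [hs.le]
  ring

/-- Poincare inequality on a square -/
lemma square_ineq {f : ℝ × ℝ → ℝ} (hf : ContDiff ℝ 1 f) (a b : ℝ) {s : ℝ} (hs : 0 < s) :
    ∫ p, f p ^ 2 ∂(sqm a b s) ≤ 2 * s ^ 2 * (∫ p, (fx f p ^ 2 + fy f p ^ 2) ∂(sqm a b s)) +
      (1 / s ^ 2) * (∫ p, f p ∂(sqm a b s)) ^ 2 := by
  have cf := hf.continuous
  have cfx := continuous_fx hf
  have cfy := continuous_fy hf
  set μ := sqm a b s with hμ
  set I := Ioc a (a + s) with hI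
  set J := Ioc b (b + s) with hJ
  have vI : (volume.restrict I : Measure ℝ).real univ = s := by simp [hI, hs.le]
  have vJ : (volume.restrict J : Measure ℝ).real univ = s := by simp [hJ, hs.le]
  have hμu := sqm_real_univ a b hs
  rw [← hμ] at hμu
  set F := ∫ p, f p ∂μ with hF
  set U : ℝ → ℝ := fun y => ∫ t in I, |fx f (t, y)| with hU
  set W : ℝ → ℝ := fun x => ∫ t in J, |fy f (x, t)| with hW
  have iUp : Integrable (fun p : ℝ × ℝ => |fx f p|) μ := integrable_sqm cfx.abs a b s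
  have iWp : Integrable (fun p : ℝ × ℝ => |fy f p|) μ := integrable_sqm cfy.abs a b s
  have iW : Integrable W (volume.restrict I) := iWp.integral_prod_left
  have ifp : Integrable f μ := integrable_sqm cf a b s
  have ifp2 : Integrable (fun p => f p ^ 2) μ := integrable_sqm (cont_pow cf 2) a b s
  have ix2 : Integrable (fun p => fx f p ^ 2) μ := integrable_sqm (cont_pow cfx 2) a b s
  have iy2 : Integrable (fun p => fy f p ^ 2) μ := integrable_sqm (cont_pow cfy 2) a b s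
  set Y := ∫ p, |fy f p| ∂μ with hY
  have hWint : ∫ q : ℝ × ℝ, W q.1 ∂μ = s * Y := by
    have : ∫ q : ℝ × ℝ, W q.1 ∂μ = ∫ q : ℝ × ℝ, W q.1 * 1 ∂μ := by simp
    rw [this, hμ, sqm, integral_prod_mul (μ := volume.restrict I) (ν := volume.restrict J)
      (f := W) (g := fun _ => (1 : ℝ))]
    rw [hY, hμ, sqm, integral_prod _ iWp, integral_const, vJ]
    simp only [smul_eq_mul, mul_one]
    rw [mul_comm]
  have iWq : Integrable (fun q : ℝ × ℝ => W q.1) μ := by
    have := iW.mul_prod (integrable_const (μ := volume.restrict J) (1 : ℝ))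
    simpa using this
  -- pointwise bound
  have hpt : ∀ p ∈ I ×ˢ J, |s ^ 2 * f p - F| ≤ s ^ 2 * U p.2 + s * Y := by
    intro p hp
    have e1 : s ^ 2 * f p - F = ∫ q, (f p - f q) ∂μ := by
      rw [integral_sub (integrable_const _) ifp, integral_const, hμu]
      simp [hF]
    have hae : ∀ᵐ q ∂μ, q ∈ I ×ˢ J := by
      rw [hμ, sqm_eq]
      exact ae_restrict_mem (measurableSet_Ioc.prod measurableSet_Ioc)
    rw [e1]
    calc |∫ q, (f p - f q) ∂μ| ≤ ∫ q, |f p - f q| ∂μ := abs_integral_le_integral_abs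
      _ ≤ ∫ q : ℝ × ℝ, (U p.2 + W q.1) ∂μ := by
          apply integral_mono_ae
          · exact ((integrable_const (f p)).sub ifp).abs
          · exact (integrable_const (U p.2)).add iWq
          · filter_upwards [hae] with q hq
            have h1 := abs_sub_le_integral (fun x => deriv_section_x hf x p.2)
              (cfx.comp (continuous_id.prodMk continuous_const)) hp.1 hq.1
            have h2 := abs_sub_le_integral (fun y => deriv_section_y hf q.1 y)
              (cfy.comp (continuous_const.prodMk continuous_id)) hp.2 hq.2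
            calc |f p - f q| = |(f (p.1, p.2) - f (q.1, p.2)) + (f (q.1, p.2) - f (q.1, q.2))| := by
                  congr 1
                  simp
              _ ≤ |f (p.1, p.2) - f (q.1, p.2)| + |f (q.1, p.2) - f (q.1, q.2)| := abs_add_le _ _
              _ ≤ U p.2 + W q.1 := add_le_add h1 h2
      _ = s ^ 2 * U p.2 + s * Y := by
          rw [integral_add (integrable_const _) iWq, integral_const, hμu, hWint]
          simp
  set V : ℝ → ℝ := fun y => ∫ t in I, fx f (t, y) ^ 2 with hVd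
  have hUV : ∀ y, U y ^ 2 ≤ s * V y := by
    intro y
    have cc : Continuous (fun t => |fx f (t, y)|) :=
      (cfx.comp (continuous_id.prodMk continuous_const)).abs
    have i1 : Integrable (fun t => |fx f (t, y)|) (volume.restrict I) :=
      (cc.integrableOn_Icc (a := a) (b := a + s)).mono_set Ioc_subset_Icc_self
    have i2 : Integrable (fun t => |fx f (t, y)| ^ 2) (volume.restrict I) :=
      ((cont_pow cc 2).integrableOn_Icc (a := a) (b := a + s)).mono_set Ioc_subset_Icc_self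
    have := cs_finite i1 i2 hs vI
    simpa only [sq_abs] using this
  have hY2 : Y ^ 2 ≤ s ^ 2 * ∫ p, fy f p ^ 2 ∂μ := by
    have i2 : Integrable (fun p => |fy f p| ^ 2) μ := by simpa only [sq_abs] using iy2
    have := cs_finite iWp i2 (by positivity : (0 : ℝ) < s ^ 2) hμu
    simpa only [sq_abs] using this
  have ix2' : Integrable (fun p => fx f p ^ 2)
    ((volume.restrict I).prod (volume.restrict J)) := ix2
  have iV : Integrable V (volume.restrict J) := ix2'.integral_prod_right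
  have hVint : ∫ q : ℝ × ℝ, V q.2 ∂μ = s * ∫ p, fx f p ^ 2 ∂μ := by
    have : ∫ q : ℝ × ℝ, V q.2 ∂μ = ∫ q : ℝ × ℝ, 1 * V q.2 ∂μ := by simp
    rw [this, hμ, sqm, integral_prod_mul (μ := volume.restrict I) (ν := volume.restrict J)
      (g := V) (f := fun _ => (1 : ℝ))]
    rw [integral_prod_symm _ ix2', integral_const, vI]
    simp only [smul_eq_mul, mul_one]
    rfl
  have iVq : Integrable (fun q : ℝ × ℝ => V q.2) μ := by
    have := (integrable_const (μ := volume.restrict I) (1 : ℝ)).mul_prod iV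
    simpa using this
  have hlhs : ∫ p, (s ^ 2 * f p - F) ^ 2 ∂μ = s ^ 4 * (∫ p, f p ^ 2 ∂μ) - s ^ 2 * F ^ 2 := by
    have e : ∀ p, (s ^ 2 * f p - F) ^ 2 = s ^ 4 * f p ^ 2 - (2 * s ^ 2 * F) * f p + F ^ 2 := by
      intro p; ring
    have i3 : Integrable (fun p => s ^ 4 * f p ^ 2 - (2 * s ^ 2 * F) * f p) μ :=
      (ifp2.const_mul _).sub (ifp.const_mul _)
    simp_rw [e]
    rw [integral_add i3 (integrable_const _), integral_sub (ifp2.const_mul _) (ifp.const_mul _),
      integral_const_mul, integral_const_mul, integral_const, hμu, ← hF]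
    simp only [smul_eq_mul]
    ring
  have hle : ∫ p, (s ^ 2 * f p - F) ^ 2 ∂μ ≤
      ∫ p : ℝ × ℝ, (2 * s ^ 5 * V p.2 + 2 * s ^ 4 * ∫ p, fy f p ^ 2 ∂μ) ∂μ := by
    apply integral_mono_ae
    · have : Integrable (fun p => s ^ 4 * f p ^ 2 - (2 * s ^ 2 * F) * f p + F ^ 2) μ :=
        ((ifp2.const_mul _).sub (ifp.const_mul _)).add (integrable_const _)
      refine this.congr (ae_of_all _ (fun p => ?_))
      show _ = _
      ring
    · exact (iVq.const_mul _).add (integrable_const _)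
    · have hae : ∀ᵐ q ∂μ, q ∈ I ×ˢ J := by
        rw [hμ, sqm_eq]
        exact ae_restrict_mem (measurableSet_Ioc.prod measurableSet_Ioc)
      filter_upwards [hae] with p hp
      have h1 := hpt p hp
      have h2 := hUV p.2
      have h3 : (s ^ 2 * f p - F) ^ 2 ≤ (s ^ 2 * U p.2 + s * Y) ^ 2 := by
        rw [← sq_abs (s ^ 2 * f p - F)]
        exact pow_le_pow_left₀ (abs_nonneg _) h1 2
      have h4 : (s ^ 2 * U p.2 + s * Y) ^ 2 ≤ 2 * (s ^ 4 * U p.2 ^ 2) + 2 * (s ^ 2 * Y ^ 2) := by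
        nlinarith [sq_nonneg (s ^ 2 * U p.2 - s * Y)]
      have h5 : s ^ 4 * U p.2 ^ 2 ≤ s ^ 4 * (s * V p.2) :=
        mul_le_mul_of_nonneg_left h2 (by positivity)
      have h6 : s ^ 2 * Y ^ 2 ≤ s ^ 2 * (s ^ 2 * ∫ p, fy f p ^ 2 ∂μ) :=
        mul_le_mul_of_nonneg_left hY2 (by positivity)
      nlinarith
  have hrhs : ∫ p : ℝ × ℝ, (2 * s ^ 5 * V p.2 + 2 * s ^ 4 * ∫ p, fy f p ^ 2 ∂μ) ∂μ =
      2 * s ^ 6 * ∫ p, (fx f p ^ 2 + fy f p ^ 2) ∂μ := by
    rw [integral_add (iVq.const_mul _) (integrable_const _), integral_const_mul, hVint,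
      integral_const, hμu, integral_add ix2 iy2]
    simp only [smul_eq_mul]
    ring
  rw [hlhs, hrhs] at hle
  have hs4 : (0 : ℝ) < s ^ 4 := by positivity
  have : s ^ 4 * (∫ p, f p ^ 2 ∂μ) ≤ s ^ 4 * (2 * s ^ 2 * (∫ p, (fx f p ^ 2 + fy f p ^ 2) ∂μ) +
      (1 / s ^ 2) * F ^ 2) := by
    have e : s ^ 4 * (2 * s ^ 2 * (∫ p, (fx f p ^ 2 + fy f p ^ 2) ∂μ) + (1 / s ^ 2) * F ^ 2) =
      2 * s ^ 6 * (∫ p, (fx f p ^ 2 + fy f p ^ 2) ∂μ) + s ^ 2 * F ^ 2 := by
      field_simp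
    rw [e]
    linarith
  exact le_of_mul_le_mul_left this hs4

/-- tiling of the unit square -/
lemma tile {g : ℝ × ℝ → ℝ} (hg : Continuous g) {K : ℕ} (hK : 0 < K) :
    ∫ p in Ioc (0 : ℝ) 1 ×ˢ Ioc (0 : ℝ) 1, g p =
      ∑ i ∈ Finset.range K ×ˢ Finset.range K,
        ∫ p, g p ∂(sqm ((i.1 : ℝ) / K) ((i.2 : ℝ) / K) (1 / K)) := by
  have hK' : (0 : ℝ) < K := by exact_mod_cast hK
  set c : ℕ → ℝ := fun k => (k : ℝ) / K with hc
  have hmono : Monotone c := by
    intro a b hab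
    simp only [hc]
    gcongr
  have hU : (⋃ i ∈ Finset.range K ×ˢ Finset.range K,
      (Ioc (c i.1) (c (i.1 + 1)) ×ˢ Ioc (c i.2) (c (i.2 + 1))))
      = Ioc (0 : ℝ) 1 ×ˢ Ioc (0 : ℝ) 1 := by
    have h1 : (⋃ i ∈ Ico 0 K, Ioc (c i) (c (i + 1))) = Ioc (0 : ℝ) 1 := by
      have := hmono.biUnion_Ico_Ioc_map_succ 0 K
      have e0 : c 0 = 0 := by simp [hc]
      have e1 : c K = 1 := by
        simp only [hc]
        exact div_self hK'.ne'
      rw [e0, e1] at this
      exact this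
    ext p
    constructor
    · intro hp
      simp only [mem_iUnion, Finset.mem_product, Finset.mem_range] at hp
      obtain ⟨i, ⟨hi1, hi2⟩, hp1, hp2⟩ := hp
      constructor
      · rw [← h1]
        simp only [mem_iUnion]
        exact ⟨i.1, ⟨Nat.zero_le _, hi1⟩, hp1⟩
      · rw [← h1]
        simp only [mem_iUnion]
        exact ⟨i.2, ⟨Nat.zero_le _, hi2⟩, hp2⟩
    · intro hp
      obtain ⟨hp1, hp2⟩ := hp
      rw [← h1] at hp1 hp2
      simp only [mem_iUnion] at hp1 hp2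
      obtain ⟨i, hi, hp1⟩ := hp1
      obtain ⟨j, hj, hp2⟩ := hp2
      simp only [mem_iUnion, Finset.mem_product, Finset.mem_range]
      exact ⟨(i, j), ⟨hi.2, hj.2⟩, hp1, hp2⟩
  rw [← hU, integral_biUnion_finset]
  · apply Finset.sum_congr rfl
    intro i _
    rw [sqm_eq]
    have e : ∀ k : ℕ, c (k + 1) = (k : ℝ) / K + 1 / K := by
      intro k
      simp only [hc]
      push_cast
      ring
    rw [e, e]
  · intro i _
    exact measurableSet_Ioc.prod measurableSet_Ioc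
  · intro i _ j _ hij
    have hd := hmono.pairwise_disjoint_on_Ioc_succ
    simp only [Function.onFun]
    rw [Set.disjoint_prod]
    by_cases h : i.1 = j.1
    · right
      have h2 : i.2 ≠ j.2 := fun h2 => hij (Prod.ext h h2)
      exact hd h2
    · left
      exact hd h
  · intro i _
    have h1 : IsCompact (Icc (c i.1) (c (i.1 + 1)) ×ˢ Icc (c i.2) (c (i.2 + 1))) :=
      isCompact_Icc.prod isCompact_Icc
    exact (hg.continuousOn.integrableOn_compact h1).mono_set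
      (prod_mono Ioc_subset_Icc_self Ioc_subset_Icc_self)

/-- global estimate by averages on the tiles -/
lemma l2_le_avg {f : ℝ × ℝ → ℝ} (hf : ContDiff ℝ 1 f)
    (h0 : ∀ p, p ∉ Ioc (0 : ℝ) 1 ×ˢ Ioc (0 : ℝ) 1 → f p = 0) (hc : HasCompactSupport f)
    {K : ℕ} (hK : 0 < K) :
    ∫ p, f p ^ 2 ≤ 2 * (1 / K : ℝ) ^ 2 * en f +
      (1 / (1 / K : ℝ) ^ 2) * ∑ i ∈ Finset.range K ×ˢ Finset.range K,
        (∫ p, f p ∂(sqm ((i.1 : ℝ) / K) ((i.2 : ℝ) / K) (1 / K))) ^ 2 := by
  have hK' : (0 : ℝ) < K := by exact_mod_cast hK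
  have e1 : ∫ p, f p ^ 2 = ∫ p in Ioc (0 : ℝ) 1 ×ˢ Ioc (0 : ℝ) 1, f p ^ 2 := by
    symm
    apply setIntegral_eq_integral_of_forall_compl_eq_zero
    intro p hp
    rw [h0 p hp]; norm_num
  have e2 : ∫ p in Ioc (0 : ℝ) 1 ×ˢ Ioc (0 : ℝ) 1, (fx f p ^ 2 + fy f p ^ 2) ≤ en f := by
    apply setIntegral_le_integral
    · exact (integrable_strip (cont_pow (continuous_fx hf) 2) (hcs_pow (hcs_fx hc) 2 (by norm_num))
        univ |>.mono_measure (by rw [strip_univ])).add
        (integrable_strip (cont_pow (continuous_fy hf) 2) (hcs_pow (hcs_fy hc) 2 (by norm_num))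
        univ |>.mono_measure (by rw [strip_univ]))
    · exact ae_of_all _ (fun p => by positivity)
  rw [e1, tile (cont_pow hf.continuous 2) hK]
  have ce : Continuous (fun p => fx f p ^ 2 + fy f p ^ 2) :=
    (cont_pow (continuous_fx hf) 2).add (cont_pow (continuous_fy hf) 2)
  rw [tile ce hK] at e2
  calc _ ≤ ∑ i ∈ Finset.range K ×ˢ Finset.range K,
        (2 * (1 / K : ℝ) ^ 2 * (∫ p, (fx f p ^ 2 + fy f p ^ 2)
            ∂(sqm ((i.1 : ℝ) / K) ((i.2 : ℝ) / K) (1 / K))) +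
          (1 / (1 / K : ℝ) ^ 2) *
            (∫ p, f p ∂(sqm ((i.1 : ℝ) / K) ((i.2 : ℝ) / K) (1 / K))) ^ 2) := by
        apply Finset.sum_le_sum
        intro i _
        exact square_ineq hf _ _ (by positivity)
    _ = 2 * (1 / K : ℝ) ^ 2 * (∑ i ∈ Finset.range K ×ˢ Finset.range K,
          ∫ p, (fx f p ^ 2 + fy f p ^ 2) ∂(sqm ((i.1 : ℝ) / K) ((i.2 : ℝ) / K) (1 / K))) +
        (1 / (1 / K : ℝ) ^ 2) * ∑ i ∈ Finset.range K ×ˢ Finset.range K,
          (∫ p, f p ∂(sqm ((i.1 : ℝ) / K) ((i.2 : ℝ) / K) (1 / K))) ^ 2 := by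
        rw [Finset.sum_add_distrib, Finset.mul_sum, Finset.mul_sum]
    _ ≤ _ := by
        gcongr

lemma fx_sub {f g : ℝ × ℝ → ℝ} (hf : ContDiff ℝ 1 f) (hg : ContDiff ℝ 1 g) (p : ℝ × ℝ) :
    fx (fun p => f p - g p) p = fx f p - fx g p := by
  unfold fx
  rw [fderiv_fun_sub ((hf.differentiable (by norm_num)) p) ((hg.differentiable (by norm_num)) p)]
  rfl

lemma fy_sub {f g : ℝ × ℝ → ℝ} (hf : ContDiff ℝ 1 f) (hg : ContDiff ℝ 1 g) (p : ℝ × ℝ) :
    fy (fun p => f p - g p) p = fy f p - fy g p := by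
  unfold fy
  rw [fderiv_fun_sub ((hf.differentiable (by norm_num)) p) ((hg.differentiable (by norm_num)) p)]
  rfl

lemma integrable_en {f : ℝ × ℝ → ℝ} (hf : ContDiff ℝ 1 f) (hc : HasCompactSupport f) :
    Integrable (fun p => fx f p ^ 2 + fy f p ^ 2) := by
  have h1 : Integrable (fun p => fx f p ^ 2) :=
    (cont_pow (continuous_fx hf) 2).integrable_of_hasCompactSupport
      (hcs_pow (hcs_fx hc) 2 (by norm_num))
  have h2 : Integrable (fun p => fy f p ^ 2) :=
    (cont_pow (continuous_fy hf) 2).integrable_of_hasCompactSupport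
      (hcs_pow (hcs_fy hc) 2 (by norm_num))
  exact h1.add h2

lemma hcs_sub {α : Type*} [TopologicalSpace α] {f g : α → ℝ} (hf : HasCompactSupport f)
    (hg : HasCompactSupport g) : HasCompactSupport (fun p => f p - g p) :=
  hf.comp₂_left (m := fun a b : ℝ => a - b) hg (by simp)

lemma en_sub_le {f g : ℝ × ℝ → ℝ} (hf : ContDiff ℝ 1 f) (hg : ContDiff ℝ 1 g)
    (hcf : HasCompactSupport f) (hcg : HasCompactSupport g) :
    en (fun p => f p - g p) ≤ 2 * en f + 2 * en g := by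
  unfold en
  rw [← integral_const_mul, ← integral_const_mul, ← integral_add
    ((integrable_en hf hcf).const_mul 2) ((integrable_en hg hcg).const_mul 2)]
  apply integral_mono (integrable_en (hf.sub hg) (hcs_sub hcf hcg))
    (((integrable_en hf hcf).const_mul 2).add ((integrable_en hg hcg).const_mul 2))
  intro p
  show fx (fun p => f p - g p) p ^ 2 + fy (fun p => f p - g p) p ^ 2 ≤
    2 * (fx f p ^ 2 + fy f p ^ 2) + 2 * (fx g p ^ 2 + fy g p ^ 2)
  rw [fx_sub hf hg, fy_sub hf hg]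
  nlinarith [sq_nonneg (fx f p + fx g p), sq_nonneg (fy f p + fy g p)]

lemma en_nonneg (f : ℝ × ℝ → ℝ) : 0 ≤ en f := integral_nonneg (fun p => by positivity)

/-- `L⁴` bound by `L²` and energy. -/
lemma l4_le {f : ℝ × ℝ → ℝ} (hf : ContDiff ℝ 1 f) (hc : HasCompactSupport f)
    {η : ℝ} (hη : 0 < η) : ∫ p, f p ^ 4 ≤ (η⁻¹ * (∫ p, f p ^ 2) + η * en f) ^ 2 := by
  have a1 := lady hf hc univ
  have a2 := mixed_le hf.continuous hc (continuous_fx hf) (hcs_fx hc) univ hη
  have a3 := mixed_le hf.continuous hc (continuous_fy hf) (hcs_fy hc) univ hη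
  rw [strip_univ] at a1 a2 a3
  have a6 := en_eq hf hc
  have p1 : 0 ≤ ∫ p, fx f p ^ 2 := integral_nonneg (fun p => by positivity)
  have p2 : 0 ≤ ∫ p, fy f p ^ 2 := integral_nonneg (fun p => by positivity)
  have q1 : 0 ≤ ∫ p, |f p| * |fx f p| := integral_nonneg (fun p => by positivity)
  have q2 : 0 ≤ ∫ p, |f p| * |fy f p| := integral_nonneg (fun p => by positivity)
  have b1 : 2 * ∫ p, |f p| * |fx f p| ≤ η⁻¹ * (∫ p, f p ^ 2) + η * en f := by
    rw [a6]; nlinarith
  have b2 : 2 * ∫ p, |f p| * |fy f p| ≤ η⁻¹ * (∫ p, f p ^ 2) + η * en f := by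
    rw [a6]; nlinarith
  refine a1.trans ?_
  rw [sq]
  exact mul_le_mul b2 b1 (by positivity) (le_trans (by positivity) b2)

/-- Rellich compactness for smooth functions supported in the unit square. -/
theorem rellich {φ : ℕ → ℝ × ℝ → ℝ} (hφ : ∀ n, ContDiff ℝ 1 (φ n))
    (hc : ∀ n, HasCompactSupport (φ n))
    (h0 : ∀ n p, p ∉ Ioo (0 : ℝ) 1 ×ˢ Ioo (0 : ℝ) 1 → φ n p = 0)
    {C : ℝ} (hC : ∀ n, en (φ n) ≤ C) :
    ∃ k : ℕ → ℕ, StrictMono k ∧ ∀ ε > 0, ∃ N, ∀ n ≥ N, ∀ m ≥ N,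
      ∫ p, (φ (k n) p - φ (k m) p) ^ 4 < ε := by
  have hC0 : 0 ≤ C := (en_nonneg _).trans (hC 0)
  set c : ℕ → (ℕ × ℕ × ℕ) → ℝ := fun n i =>
    ∫ p, φ n p ∂(sqm ((i.2.1 : ℝ) / i.1) ((i.2.2 : ℝ) / i.1) (1 / i.1)) with hcdef
  have hL2 : ∀ n, ∫ p, φ n p ^ 2 ≤ 4 * C := by
    intro n
    have h1 := poincare (hφ n) (hc n) MeasurableSet.univ one_pos
      (fun x _ y hy => h0 n (x, y) (fun h => hy h.2))
    rw [strip_univ] at h1
    have h2 := en_eq (hφ n) (hc n)
    have p1 : 0 ≤ ∫ p, fx (φ n) p ^ 2 := integral_nonneg (fun p => by positivity)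
    have := hC n
    linarith
  have hbound : ∀ n i, c n i ∈ Icc (-(1 + 4 * C)) (1 + 4 * C) := by
    intro n i
    have cf := (hφ n).continuous
    have icf : Integrable (fun p => |φ n p|) := cf.abs.integrable_of_hasCompactSupport
      ((hc n).comp_left (g := fun y : ℝ => |y|) (by simp))
    have ic2 : Integrable (fun p => φ n p ^ 2) := (cont_pow cf 2).integrable_of_hasCompactSupport
      (hcs_pow (hc n) 2 (by norm_num))
    have h1 : |c n i| ≤ ∫ p, |φ n p| := by
      refine (abs_integral_le_integral_abs).trans ?_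
      rw [sqm_eq]
      exact setIntegral_le_integral icf (ae_of_all _ (fun p => abs_nonneg _))
    have h2 : ∫ p, |φ n p| = ∫ p in Ioo (0 : ℝ) 1 ×ˢ Ioo (0 : ℝ) 1, |φ n p| := by
      symm
      apply setIntegral_eq_integral_of_forall_compl_eq_zero
      intro p hp
      rw [h0 n p hp]; norm_num
    have hvol : (volume : Measure (ℝ × ℝ)).real (Ioo (0 : ℝ) 1 ×ˢ Ioo (0 : ℝ) 1) = 1 := by
      rw [Measure.volume_eq_prod, measureReal_prod_prod]
      simp
    have hfin : (volume : Measure (ℝ × ℝ)) (Ioo (0 : ℝ) 1 ×ˢ Ioo (0 : ℝ) 1) ≠ ⊤ := by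
      intro h
      rw [Measure.real, h] at hvol
      simp at hvol
    have h3 : ∫ p in Ioo (0 : ℝ) 1 ×ˢ Ioo (0 : ℝ) 1, |φ n p| ≤
        ∫ p in Ioo (0 : ℝ) 1 ×ˢ Ioo (0 : ℝ) 1, (1 + φ n p ^ 2) := by
      apply integral_mono icf.integrableOn
      · exact (integrableOn_const hfin (by finiteness)).add ic2.integrableOn
      · intro p
        show |φ n p| ≤ 1 + φ n p ^ 2
        rw [← sq_abs]
        nlinarith [sq_nonneg (|φ n p| - 1), abs_nonneg (φ n p)]
    have h4 : ∫ p in Ioo (0 : ℝ) 1 ×ˢ Ioo (0 : ℝ) 1, (1 + φ n p ^ 2) ≤ 1 + 4 * C := by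
      have ione : Integrable (fun _ : ℝ × ℝ => (1 : ℝ))
        ((volume : Measure (ℝ × ℝ)).restrict (Ioo (0 : ℝ) 1 ×ˢ Ioo (0 : ℝ) 1)) :=
        integrableOn_const hfin (by finiteness)
      rw [integral_add ione ic2.integrableOn, setIntegral_const, hvol]
      have := setIntegral_le_integral (s := Ioo (0 : ℝ) 1 ×ˢ Ioo (0 : ℝ) 1) ic2
        (ae_of_all _ (fun p => by positivity))
      have := hL2 n
      simp only [smul_eq_mul, mul_one]
      linarith
    rw [mem_Icc, ← abs_le]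
    linarith
  obtain ⟨L, -, k, hk, hlim⟩ := (isCompact_univ_pi (fun _ : ℕ × ℕ × ℕ =>
    (isCompact_Icc (a := -(1 + 4 * C)) (b := 1 + 4 * C)))).tendsto_subseq
    (x := c) (fun n i _ => hbound n i)
  refine ⟨k, hk, ?_⟩
  intro ε hε
  set r := Real.sqrt ε with hr
  have hr0 : 0 < r := Real.sqrt_pos.mpr hε
  have hr2 : r ^ 2 = ε := Real.sq_sqrt hε.le
  set η := r / (4 * (4 * C + 1)) with hη
  have hη0 : 0 < η := by positivity
  have hηC : η * (4 * C) ≤ r / 4 := by
    have : η * (4 * C + 1) = r / 4 := by rw [hη]; field_simp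
    nlinarith
  obtain ⟨K, hK⟩ := exists_nat_gt (2 * (4 * C) * 8 / (η * r) + 1)
  have hK1 : (1 : ℝ) < K := lt_of_le_of_lt (by
    have : 0 ≤ 2 * (4 * C) * 8 / (η * r) := by positivity
    linarith) hK
  have hK0 : 0 < K := by
    have : (0 : ℝ) < K := by linarith
    exact_mod_cast this
  have hKs : 2 * (1 / K : ℝ) ^ 2 * (4 * C) ≤ η * r / 8 := by
    have h1 : 2 * (4 * C) * 8 / (η * r) < K := by linarith
    rw [div_lt_iff₀ (by positivity)] at h1
    have hKp : (0 : ℝ) < K := by linarith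
    have h2 : 2 * (1 / K : ℝ) ^ 2 * (4 * C) = 2 * (4 * C) / (K : ℝ) ^ 2 := by
      field_simp
    rw [h2, div_le_iff₀ (by positivity)]
    have h3 : K * (η * r) ≤ (K : ℝ) ^ 2 * (η * r) := by
      apply mul_le_mul_of_nonneg_right _ (by positivity)
      nlinarith
    nlinarith
  have hlimi : ∀ i, Tendsto (fun n => c (k n) i) atTop (𝓝 (L i)) := by
    intro i
    exact (continuous_apply i).continuousAt.tendsto.comp hlim
  have hT : Tendsto (fun q : ℕ × ℕ => (1 / (1 / K : ℝ) ^ 2) *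
      ∑ i ∈ Finset.range K ×ˢ Finset.range K,
        (c (k q.1) (K, i.1, i.2) - c (k q.2) (K, i.1, i.2)) ^ 2) (atTop ×ˢ atTop) (𝓝 0) := by
    have h0' : (0 : ℝ) = (1 / (1 / K : ℝ) ^ 2) * ∑ i ∈ Finset.range K ×ˢ Finset.range K,
        (L (K, i.1, i.2) - L (K, i.1, i.2)) ^ 2 := by simp
    rw [h0']
    apply Tendsto.const_mul
    apply tendsto_finsetSum
    intro i _
    exact (((hlimi _).comp tendsto_fst).sub ((hlimi _).comp tendsto_snd)).pow 2
  rw [prod_atTop_atTop_eq] at hT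
  have hev := hT.eventually (gt_mem_nhds (show (0 : ℝ) < η * r / 8 by positivity))
  rw [eventually_atTop_prod_self'] at hev
  obtain ⟨N, hN⟩ := hev
  refine ⟨N, fun n hn m hm => ?_⟩
  have h1 := hN n hn m hm
  simp only at h1
  have hd : ContDiff ℝ 1 (fun p => φ (k n) p - φ (k m) p) := (hφ _).sub (hφ _)
  have hcd := hcs_sub (hc (k n)) (hc (k m))
  have h2 := l2_le_avg hd (fun p hp => by
    have hp' : p ∉ Ioo (0 : ℝ) 1 ×ˢ Ioo (0 : ℝ) 1 := fun h =>
      hp ⟨Ioo_subset_Ioc_self h.1, Ioo_subset_Ioc_self h.2⟩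
    rw [h0 _ p hp', h0 _ p hp', sub_zero]) hcd hK0
  have h3 := en_sub_le (hφ (k n)) (hφ (k m)) (hc _) (hc _)
  have hE : en (fun p => φ (k n) p - φ (k m) p) ≤ 4 * C := by
    have := hC (k n); have := hC (k m); linarith
  have h4 : ∑ i ∈ Finset.range K ×ˢ Finset.range K,
        (∫ p, (φ (k n) p - φ (k m) p) ∂(sqm ((i.1 : ℝ) / K) ((i.2 : ℝ) / K) (1 / K))) ^ 2 =
      ∑ i ∈ Finset.range K ×ˢ Finset.range K,
        (c (k n) (K, i.1, i.2) - c (k m) (K, i.1, i.2)) ^ 2 := by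
    apply Finset.sum_congr rfl
    intro i _
    rw [integral_sub (integrable_sqm (hφ _).continuous _ _ _)
      (integrable_sqm (hφ _).continuous _ _ _)]
  rw [h4] at h2
  have h5 : ∫ p, (φ (k n) p - φ (k m) p) ^ 2 ≤ η * r / 4 := by
    have : 2 * (1 / K : ℝ) ^ 2 * en (fun p => φ (k n) p - φ (k m) p) ≤
        2 * (1 / K : ℝ) ^ 2 * (4 * C) := mul_le_mul_of_nonneg_left hE (by positivity)
    linarith
  have h6 := l4_le hd hcd hη0
  have h7 : η⁻¹ * (∫ p, (φ (k n) p - φ (k m) p) ^ 2) + η * en (fun p => φ (k n) p - φ (k m) p) ≤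
      r / 2 := by
    have a1 : η⁻¹ * (∫ p, (φ (k n) p - φ (k m) p) ^ 2) ≤ η⁻¹ * (η * r / 4) :=
      mul_le_mul_of_nonneg_left h5 (by positivity)
    have a2 : η⁻¹ * (η * r / 4) = r / 4 := by field_simp
    have a3 : η * en (fun p => φ (k n) p - φ (k m) p) ≤ η * (4 * C) :=
      mul_le_mul_of_nonneg_left hE hη0.le
    linarith
  have h8 : 0 ≤ η⁻¹ * (∫ p, (φ (k n) p - φ (k m) p) ^ 2) +
      η * en (fun p => φ (k n) p - φ (k m) p) := by
    have : 0 ≤ ∫ p, (φ (k n) p - φ (k m) p) ^ 2 := integral_nonneg (fun p => by positivity)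
    have := en_nonneg (fun p => φ (k n) p - φ (k m) p)
    positivity
  calc ∫ p, (φ (k n) p - φ (k m) p) ^ 4 ≤ _ := h6
    _ ≤ (r / 2) ^ 2 := pow_le_pow_left₀ h8 h7 2
    _ < ε := by rw [← hr2]; nlinarith

end Pool.Agent.H57.Rooms
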