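import Pool.Agent.H57.Rooms.Transfer

open MeasureTheory Set Filter Topology
open scoped ContDiff
open Pool.Agent.MP_21f5b8_an

namespace Pool.Agent.H57.Rooms

variable {Ω : Set E2} {φ ψ : E2 → ℝ}

lemma test_c1 (h : IsTest Ω φ) : ContDiff ℝ 1 φ := h.1.of_le (by exact_mod_cast le_top)

lemma test_diff (h : IsTest Ω φ) (z : E2) : DifferentiableAt ℝ φ z :=
  (test_c1 h).differentiable (by norm_num) z

lemma test_zero_off (h : IsTest Ω φ) {z : E2} (hz : z ∉ Ω) : φ z = 0 := by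
  by_contra hne
  exact hz (h.2.2 (subset_tsupport _ hne))

lemma test_add (h : IsTest Ω φ) (h' : IsTest Ω ψ) : IsTest Ω (fun z => φ z + ψ z) := by
  refine ⟨h.1.add h'.1, ?_, ?_⟩
  · exact HasCompactSupport.add h.2.1 h'.2.1
  · exact (tsupport_add φ ψ).trans (union_subset h.2.2 h'.2.2)

lemma test_smul (c : ℝ) (h : IsTest Ω φ) : IsTest Ω (fun z => c * φ z) := by
  refine ⟨contDiff_const.mul h.1, ?_, ?_⟩
  · exact h.2.1.mul_left
  · exact (tsupport_mul_subset_right (f := fun _ => c) (g := φ)).trans h.2.2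

lemma test_zero : IsTest Ω (fun _ => (0 : ℝ)) := by
  refine ⟨contDiff_const, HasCompactSupport.zero, ?_⟩
  have : tsupport (fun _ : E2 => (0 : ℝ)) = ∅ := by
    rw [tsupport_eq_empty_iff]; rfl
  rw [this]
  exact empty_subset _

lemma test_mulx {χ : ℝ → ℝ} (hχ : ContDiff ℝ ∞ χ) (h : IsTest Ω φ) :
    IsTest Ω (fun z => χ (z 0) * φ z) := by
  refine ⟨?_, ?_, ?_⟩
  · have : ContDiff ℝ ∞ (fun z : E2 => χ (z 0)) := hχ.comp (by fun_prop)
    exact this.mul h.1
  · exact h.2.1.mul_left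
  · exact (tsupport_mul_subset_right (f := fun z : E2 => χ (z 0)) (g := φ)).trans h.2.2

lemma test_comp {g : ℝ → ℝ} (hg : ContDiff ℝ ∞ g) (g0 : g 0 = 0) (h : IsTest Ω φ) :
    IsTest Ω (fun z => g (φ z)) := by
  refine ⟨hg.comp h.1, h.2.1.comp_left g0, ?_⟩
  refine (closure_mono ?_).trans h.2.2
  intro z hz hz0
  apply hz
  show g (φ z) = 0
  rw [show φ z = 0 from hz0, g0]

lemma grad_add {z : E2} (hφ : DifferentiableAt ℝ φ z) (hψ : DifferentiableAt ℝ ψ z) :
    gradient (fun z => φ z + ψ z) z = gradient φ z + gradient ψ z := by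
  unfold gradient
  rw [fderiv_fun_add hφ hψ, map_add]

lemma grad_smul (c : ℝ) {z : E2} (hφ : DifferentiableAt ℝ φ z) :
    gradient (fun z => c * φ z) z = c • gradient φ z := by
  unfold gradient
  rw [fderiv_const_mul hφ, map_smul]

lemma grad_comp {g : ℝ → ℝ} (hg : ContDiff ℝ ∞ g) {z : E2} (hφ : DifferentiableAt ℝ φ z) :
    gradient (fun z => g (φ z)) z = deriv g (φ z) • gradient φ z := by
  have h1 : HasDerivAt g (deriv g (φ z)) (φ z) :=
    ((hg.differentiable (by simp)) (φ z)).hasDerivAt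
  have h2 := (h1.comp_hasFDerivAt z hφ.hasFDerivAt).fderiv
  rw [Function.comp_def] at h2
  unfold gradient
  rw [h2, map_smul]

lemma fderiv_mulx {χ : ℝ → ℝ} (hχ : ContDiff ℝ ∞ χ) {z : E2} (hφ : DifferentiableAt ℝ φ z)
    (v : E2) : fderiv ℝ (fun z : E2 => χ (z 0) * φ z) z v =
      χ (z 0) * fderiv ℝ φ z v + deriv χ (z 0) * v 0 * φ z := by
  have h1 : HasDerivAt χ (deriv χ (z 0)) (z 0) :=
    ((hχ.differentiable (by simp)) (z 0)).hasDerivAt
  have h0 : HasFDerivAt (fun z : E2 => z 0) (EuclideanSpace.proj (𝕜 := ℝ) (0 : Fin 2)) z :=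
    (EuclideanSpace.proj (𝕜 := ℝ) (0 : Fin 2)).hasFDerivAt
  have h2 := h1.comp_hasFDerivAt z h0
  have h3 := (h2.mul hφ.hasFDerivAt).fderiv
  have e : (fun z : E2 => χ (z 0) * φ z) = (χ ∘ fun z : E2 => z 0) * φ := rfl
  rw [e, h3]
  simp
  ring

lemma grad_mulx_zero {χ : ℝ → ℝ} (hχ : ContDiff ℝ ∞ χ) {z : E2} (hφ : DifferentiableAt ℝ φ z) :
    gradient (fun z : E2 => χ (z 0) * φ z) z 0 =
      χ (z 0) * gradient φ z 0 + deriv χ (z 0) * φ z := by
  rw [gradient_zero, gradient_zero, fderiv_mulx hχ hφ]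
  simp

lemma grad_mulx_one {χ : ℝ → ℝ} (hχ : ContDiff ℝ ∞ χ) {z : E2} (hφ : DifferentiableAt ℝ φ z) :
    gradient (fun z : E2 => χ (z 0) * φ z) z 1 = χ (z 0) * gradient φ z 1 := by
  rw [gradient_one, gradient_one, fderiv_mulx hχ hφ]
  simp

lemma continuous_grad (h : IsTest Ω φ) : Continuous (gradient φ) := by
  unfold gradient
  exact (LinearIsometryEquiv.continuous _).comp ((test_c1 h).continuous_fderiv (by norm_num))

lemma hcs_grad (h : IsTest Ω φ) : HasCompactSupport (gradient φ) := by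
  have h1 := h.2.1.fderiv (𝕜 := ℝ)
  exact h1.comp_left (g := (InnerProductSpace.toDual ℝ E2).symm) (by simp)

lemma memLp_test (h : IsTest Ω φ) (p : ENNReal) : MemLp φ p volume :=
  h.1.continuous.memLp_of_hasCompactSupport h.2.1

lemma memLp_grad (h : IsTest Ω φ) (p : ENNReal) : MemLp (gradient φ) p volume :=
  (continuous_grad h).memLp_of_hasCompactSupport (hcs_grad h)

lemma integrable_pow (h : IsTest Ω φ) (n : ℕ) (hn : n ≠ 0) : Integrable (fun z => φ z ^ n) :=
  (cont_pow h.1.continuous n).integrable_of_hasCompactSupport (hcs_pow h.2.1 n hn)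

lemma integrable_gradsq (h : IsTest Ω φ) : Integrable (fun z => ‖gradient φ z‖ ^ 2) := by
  have h1 : HasCompactSupport (fun z => ‖gradient φ z‖) := (hcs_grad h).norm
  exact (cont_pow (continuous_grad h).norm 2).integrable_of_hasCompactSupport
    (hcs_pow h1 2 (by norm_num))

lemma En_nonneg (φ : E2 → ℝ) : 0 ≤ En φ := integral_nonneg (fun z => by positivity)

lemma En_smul (c : ℝ) (h : IsTest Ω φ) : En (fun z => c * φ z) = c ^ 2 * En φ := by
  unfold En
  rw [← integral_const_mul]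
  congr 1
  funext z
  rw [grad_smul c (test_diff h z), norm_smul, mul_pow, Real.norm_eq_abs, sq_abs]

end Pool.Agent.H57.Rooms
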