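import Pool.Agent.H57.Rooms.Rellich
import Pool.Agent.H57.Rooms.Defs

open MeasureTheory Set Filter Topology
open scoped ContDiff

namespace Pool.Agent.H57.Rooms

abbrev E2 := EuclideanSpace ℝ (Fin 2)

/-- `(x,y) ↦ (x,y)` into `EuclideanSpace`. -/
noncomputable def toE : ℝ × ℝ → E2 := fun p => WithLp.toLp 2 ![p.1, p.2]

noncomputable def toEL : ℝ × ℝ →L[ℝ] E2 :=
  (ContinuousLinearMap.fst ℝ ℝ ℝ).smulRight (EuclideanSpace.single 0 1) +
    (ContinuousLinearMap.snd ℝ ℝ ℝ).smulRight (EuclideanSpace.single 1 1)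

lemma toEL_apply (p : ℝ × ℝ) : toEL p = toE p := by
  ext i
  fin_cases i <;> simp [toEL, toE]

lemma toE_zero (p : ℝ × ℝ) : toE p 0 = p.1 := rfl
lemma toE_one (p : ℝ × ℝ) : toE p 1 = p.2 := rfl

lemma toE_surj (z : E2) : toE (z 0, z 1) = z := by
  ext i
  fin_cases i <;> rfl

lemma toE_10 : toE (1, 0) = EuclideanSpace.single 0 1 := by
  ext i
  fin_cases i <;> simp [toE]

lemma toE_01 : toE (0, 1) = EuclideanSpace.single 1 1 := by
  ext i
  fin_cases i <;> simp [toE]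

lemma mp_toE : MeasurePreserving toE (volume : Measure (ℝ × ℝ)) (volume : Measure E2) := by
  have h1 := (volume_preserving_finTwoArrow ℝ).symm
  have h2 := PiLp.volume_preserving_toLp (ι := Fin 2)
  exact h2.comp h1

noncomputable def toEme : (ℝ × ℝ) ≃ᵐ E2 :=
  (MeasurableEquiv.finTwoArrow (α := ℝ)).symm.trans (MeasurableEquiv.toLp 2 (Fin 2 → ℝ))

lemma toEme_apply (p : ℝ × ℝ) : toEme p = toE p := rfl

lemma me_toE : MeasurableEmbedding toE := toEme.measurableEmbedding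

lemma integral_toE {F : Type*} [NormedAddCommGroup F] [NormedSpace ℝ F] (g : E2 → F) :
    ∫ p, g (toE p) = ∫ z, g z := mp_toE.integral_comp me_toE g

/-- vertical strip in `E2` -/
def vstrip (I : Set ℝ) : Set E2 := {z | z 0 ∈ I}

lemma setIntegral_toE (g : E2 → ℝ) (I : Set ℝ) :
    ∫ p, g (toE p) ∂(strip I) = ∫ z in vstrip I, g z := by
  rw [← mp_toE.setIntegral_preimage_emb me_toE]
  have : toE ⁻¹' (vstrip I) = I ×ˢ univ := by
    ext p
    simp [vstrip, toE_zero]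
  rw [this, strip, Measure.volume_eq_prod, ← Measure.prod_restrict, Measure.restrict_univ]

lemma continuous_toE : Continuous toE := by
  have : toE = toEL := by funext p; rw [toEL_apply]
  rw [this]; exact toEL.continuous

lemma contDiff_comp_toE {φ : E2 → ℝ} {n : WithTop ℕ∞} (hφ : ContDiff ℝ n φ) :
    ContDiff ℝ n (fun p => φ (toE p)) := by
  have : (fun p => φ (toE p)) = fun p => φ (toEL p) := by funext p; rw [toEL_apply]
  rw [this]
  exact hφ.comp toEL.contDiff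

lemma hcs_comp_toE {φ : E2 → ℝ} (hφ : HasCompactSupport φ) :
    HasCompactSupport (fun p => φ (toE p)) := by
  have hcont : Continuous (fun z : E2 => ((z 0, z 1) : ℝ × ℝ)) := by fun_prop
  apply HasCompactSupport.intro (K := (fun z : E2 => (z 0, z 1)) '' tsupport φ)
  · exact hφ.isCompact.image hcont
  · intro p hp
    by_contra h
    exact hp ⟨toE p, subset_tsupport _ h, rfl⟩

lemma gradient_zero {φ : E2 → ℝ} (z : E2) :
    gradient φ z 0 = fderiv ℝ φ z (EuclideanSpace.single 0 1) := by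
  have h := inner_gradient_left (𝕜 := ℝ) (f := φ) (x := z) (y := EuclideanSpace.single 0 1)
  rw [← h, EuclideanSpace.inner_single_right]
  simp

lemma gradient_one {φ : E2 → ℝ} (z : E2) :
    gradient φ z 1 = fderiv ℝ φ z (EuclideanSpace.single 1 1) := by
  have h := inner_gradient_left (𝕜 := ℝ) (f := φ) (x := z) (y := EuclideanSpace.single 1 1)
  rw [← h, EuclideanSpace.inner_single_right]
  simp

lemma fderiv_comp_toE {φ : E2 → ℝ} (hφ : ContDiff ℝ 1 φ) (p v : ℝ × ℝ) :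
    fderiv ℝ (fun p => φ (toE p)) p v = fderiv ℝ φ (toE p) (toE v) := by
  have h : (fun p => φ (toE p)) = fun p => φ (toEL p) := by funext p; rw [toEL_apply]
  rw [h]
  have hd : HasFDerivAt φ (fderiv ℝ φ (toEL p)) (toEL p) :=
    ((hφ.differentiable (by norm_num)) _).hasFDerivAt
  have := (hd.comp p toEL.hasFDerivAt).fderiv
  rw [Function.comp_def] at this
  rw [this]
  simp [toEL_apply]

lemma fx_comp_toE {φ : E2 → ℝ} (hφ : ContDiff ℝ 1 φ) (p : ℝ × ℝ) :
    fx (fun p => φ (toE p)) p = gradient φ (toE p) 0 := by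
  rw [fx, fderiv_comp_toE hφ, toE_10, gradient_zero]

lemma fy_comp_toE {φ : E2 → ℝ} (hφ : ContDiff ℝ 1 φ) (p : ℝ × ℝ) :
    fy (fun p => φ (toE p)) p = gradient φ (toE p) 1 := by
  rw [fy, fderiv_comp_toE hφ, toE_01, gradient_one]

/-- energy -/
noncomputable def En (φ : E2 → ℝ) : ℝ := ∫ z, ‖gradient φ z‖ ^ 2

lemma norm_sq_E2 (v : E2) : ‖v‖ ^ 2 = v 0 ^ 2 + v 1 ^ 2 := by
  rw [EuclideanSpace.norm_sq_eq]
  simp [Fin.sum_univ_two, sq_abs]

lemma en_comp_toE {φ : E2 → ℝ} (hφ : ContDiff ℝ 1 φ) : en (fun p => φ (toE p)) = En φ := by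
  unfold en En
  rw [← integral_toE]
  congr 1
  funext p
  rw [fx_comp_toE hφ, fy_comp_toE hφ, norm_sq_E2]

/-- Main strip inequality in `E2`. -/
lemma strip_ineq {φ : E2 → ℝ} (hφ : ContDiff ℝ 1 φ) (hc : HasCompactSupport φ)
    {I : Set ℝ} (hI : MeasurableSet I) {h : ℝ} (hh : 0 < h)
    (h0 : ∀ z : E2, z 0 ∈ I → z 1 ∉ Ioo 0 h → φ z = 0)
    (h1 : ∀ z : E2, z 1 ∉ Ioo (0 : ℝ) 1 → φ z = 0) :
    ∫ z in vstrip I, φ z ^ 4 ≤ 8 * h * En φ ^ 2 := by
  rw [← setIntegral_toE (fun z => φ z ^ 4) I, ← en_comp_toE hφ]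
  exact lady_strip (contDiff_comp_toE hφ) (hcs_comp_toE hc) hI hh
    (fun x hx y hy => h0 _ hx hy) (fun x y hy => h1 _ hy)

/-- Vertical Poincare inequality on strips in `E2`. -/
lemma strip_poincare {φ : E2 → ℝ} (hφ : ContDiff ℝ 1 φ) (hc : HasCompactSupport φ)
    {I : Set ℝ} (hI : MeasurableSet I) {h : ℝ} (hh : 0 < h)
    (h0 : ∀ z : E2, z 0 ∈ I → z 1 ∉ Ioo 0 h → φ z = 0) :
    ∫ z in vstrip I, φ z ^ 2 ≤ 4 * h ^ 2 * En φ := by
  have hf := contDiff_comp_toE hφ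
  have hcf := hcs_comp_toE hc
  rw [← setIntegral_toE (fun z => φ z ^ 2) I, ← en_comp_toE hφ]
  refine (poincare hf hcf hI hh (fun x hx y hy => h0 _ hx hy)).trans ?_
  apply mul_le_mul_of_nonneg_left _ (by positivity)
  refine (fy_sq_strip_le hf hcf I).trans ?_
  rw [en_eq hf hcf]
  have : 0 ≤ ∫ p, fx (fun p => φ (toE p)) p ^ 2 := integral_nonneg (fun p => by positivity)
  linarith

end Pool.Agent.H57.Rooms
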